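import Mathlib
import Pool.Agent.Helper23.Haagerup

set_option autoImplicit false

/-!
Cancellation in the free product of two copies of a group `M`.
-/

namespace Pool.Agent.W2helper27.RP

open Monoid

section gen

variable {M : Type} [Group M] [DecidableEq M]

/-- the free product of two copies of `M` -/
abbrev GG (M : Type) [Group M] : Type := CoprodI (fun _ : Bool => M)

/-- syllables -/
abbrev Syl (M : Type) : Type := Σ _ : Bool, M

/-- the inclusion of the `i`-th copy -/
abbrev inc (i : Bool) : M →* GG M := CoprodI.of (M := fun _ : Bool => M) (i := i)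

/-- product of a list of syllables -/
def pr (l : List (Syl M)) : GG M := (l.map fun x => inc x.1 x.2).prod

/-- the reduced list of an element -/
def tl (g : GG M) : List (Syl M) := (CoprodI.Word.equiv g).toList

/-- reduced lists -/
def Red (l : List (Syl M)) : Prop := (∀ x ∈ l, x.2 ≠ 1) ∧ l.IsChain fun x y => x.1 ≠ y.1

omit [DecidableEq M] in
@[simp] lemma pr_nil : pr ([] : List (Syl M)) = 1 := rfl

omit [DecidableEq M] in
@[simp] lemma pr_cons (x : Syl M) (l : List (Syl M)) : pr (x :: l) = inc x.1 x.2 * pr l := by
  simp [pr]

omit [DecidableEq M] in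
@[simp] lemma pr_append (l l' : List (Syl M)) : pr (l ++ l') = pr l * pr l' := by
  simp [pr]

lemma red_tl (g : GG M) : Red (tl g) := ⟨(CoprodI.Word.equiv g).ne_one, (CoprodI.Word.equiv g).chain_ne⟩

lemma pr_tl (g : GG M) : pr (tl g) = g := CoprodI.Word.equiv.symm_apply_apply g

lemma tl_pr {l : List (Syl M)} (h : Red l) : tl (pr l) = l := by
  have := CoprodI.Word.equiv.apply_symm_apply (⟨l, h.1, h.2⟩ : CoprodI.Word (fun _ : Bool => M))
  exact congrArg CoprodI.Word.toList this

omit [DecidableEq M] in
lemma Red.left {l l' : List (Syl M)} (h : Red (l ++ l')) : Red l :=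
  ⟨fun x hx => h.1 x (List.mem_append_left _ hx), h.2.left_of_append⟩

omit [DecidableEq M] in
lemma Red.tail {x : Syl M} {l : List (Syl M)} (h : Red (x :: l)) : Red l :=
  ⟨fun y hy => h.1 y (List.mem_cons_of_mem _ hy), h.2.tail⟩

lemma cancel_aux : ∀ (A B : List (Syl M)), Red A → Red B →
    ∃ (i j : ℕ) (α : GG M), i ≤ A.length ∧ j ≤ A.length ∧
      (α = 1 ∨ ∃ x ∈ A, α = inc x.1 x.2) ∧
      (tl (pr A * pr B)).take i = A.take i ∧ pr A = pr (A.take i) * α * (pr (B.take j))⁻¹ := by
  intro A
  induction A using List.reverseRecOn with
  | nil =>
    intro B _ _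
    exact ⟨0, 0, 1, le_rfl, le_rfl, Or.inl rfl, by simp, by simp⟩
  | append_singleton A' x ih =>
    intro B hA hB
    cases B with
    | nil =>
      refine ⟨(A' ++ [x]).length, 0, 1, le_rfl, Nat.zero_le _, Or.inl rfl, ?_, ?_⟩
      · rw [pr_nil, mul_one, tl_pr hA]
      · rw [List.take_length]; simp
    | cons y B' =>
      by_cases hxy : x.1 = y.1
      · by_cases hc : x.2 * y.2 = 1
        · obtain ⟨i, j, α, hi, hj, hα, h1, h2⟩ := ih B' hA.left hB.tail
          refine ⟨i, j + 1, α, ?_, ?_, ?_, ?_, ?_⟩
          · rw [List.length_append]; omega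
          · rw [List.length_append]; simp; omega
          · rcases hα with h | ⟨z, hz, h⟩
            · exact Or.inl h
            · exact Or.inr ⟨z, List.mem_append_left _ hz, h⟩
          · have e : pr (A' ++ [x]) * pr (y :: B') = pr A' * pr B' := by
              rw [pr_append, pr_cons, pr_cons, pr_nil, mul_one, mul_assoc,
                ← mul_assoc (inc x.1 x.2)]
              have : inc x.1 x.2 * inc y.1 y.2 = 1 := by
                rw [hxy, ← map_mul, hc, map_one]
              rw [this, one_mul]
            rw [e, h1, List.take_append_of_le_length hi]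
          · rw [pr_append, pr_cons, pr_nil, mul_one, List.take_append_of_le_length hi,
              List.take_succ_cons, pr_cons, mul_inv_rev]
            rw [h2]
            have : inc x.1 x.2 = (inc y.1 y.2)⁻¹ := by
              rw [hxy, ← map_inv]
              congr 1
              exact eq_inv_of_mul_eq_one_left hc
            rw [this]
            group
        · have hred : Red (A' ++ ⟨x.1, x.2 * y.2⟩ :: B') := by
            refine ⟨?_, ?_⟩
            · intro z hz
              rw [List.mem_append, List.mem_cons] at hz
              rcases hz with hz | hz | hz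
              · exact hA.1 z (List.mem_append_left _ hz)
              · rw [hz]; exact hc
              · exact hB.1 z (List.mem_cons_of_mem _ hz)
            · have h1 := hA.2
              have h2 := hB.2
              rw [List.isChain_append] at h1 ⊢
              refine ⟨h1.1, ?_, ?_⟩
              · rw [List.isChain_cons] at h2 ⊢
                refine ⟨fun z hz => ?_, h2.2⟩
                show x.1 ≠ z.1
                rw [hxy]
                exact h2.1 z hz
              · intro z hz w hw
                have h3 := h1.2.2 z hz x (by simp)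
                simp only [List.head?_cons, Option.mem_def, Option.some.injEq] at hw
                rw [← hw]
                exact h3
          refine ⟨A'.length, 0, inc x.1 x.2, ?_, Nat.zero_le _, Or.inr ⟨x, by simp, rfl⟩, ?_, ?_⟩
          · rw [List.length_append]; omega
          · have e : pr (A' ++ [x]) * pr (y :: B') = pr (A' ++ ⟨x.1, x.2 * y.2⟩ :: B') := by
              rw [pr_append, pr_cons, pr_cons, pr_nil, mul_one, pr_append, pr_cons]
              simp only [map_mul]
              rw [← hxy]
              group
            rw [e, tl_pr hred]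
            rw [List.take_left, List.take_left]
          · rw [List.take_left, pr_append]; simp
      · have hred : Red ((A' ++ [x]) ++ y :: B') := by
          refine ⟨?_, ?_⟩
          · intro z hz
            rw [List.mem_append] at hz
            rcases hz with hz | hz
            · exact hA.1 z hz
            · exact hB.1 z hz
          · rw [List.isChain_append]
            refine ⟨hA.2, hB.2, ?_⟩
            intro z hz w hw
            simp only [List.getLast?_append, List.getLast?_singleton, Option.mem_def,
              List.head?_cons, Option.some.injEq, Option.some_or] at hz hw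
            rw [← hz, ← hw]
            exact hxy
        refine ⟨(A' ++ [x]).length, 0, 1, le_rfl, Nat.zero_le _, Or.inl rfl, ?_, ?_⟩
        · rw [← pr_append, tl_pr hred, List.take_left, List.take_length]
        · rw [List.take_length]; simp

/-- initial segments -/
def pre (i : ℕ) (g : GG M) : GG M := pr ((tl g).take i)

lemma cancel (a b : GG M) : ∃ (i j : ℕ) (α : GG M), i ≤ (tl a).length ∧ j ≤ (tl a).length ∧
      (α = 1 ∨ ∃ x ∈ tl a, α = inc x.1 x.2) ∧
      pre i a = pre i (a * b) ∧ pre j b * α⁻¹ = a⁻¹ * pre i a := by
  obtain ⟨i, j, α, hi, hj, hα, h1, h2⟩ := cancel_aux (tl a) (tl b) (red_tl a) (red_tl b)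
  rw [pr_tl, pr_tl] at h1
  refine ⟨i, j, α, hi, hj, hα, ?_, ?_⟩
  · unfold pre; rw [h1]
  · rw [pr_tl] at h2
    have h3 : a = pre i a * α * (pre j b)⁻¹ := h2
    have h4 : a⁻¹ = pre j b * α⁻¹ * (pre i a)⁻¹ := by
      conv_lhs => rw [h3]
      group
    rw [h4]; group

end gen

end Pool.Agent.W2helper27.RP
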