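import Mathlib
import Pool.Agent.W2helper27.RP.Cancel

set_option autoImplicit false

/-!
The Green function of a nearest neighbour type walk on a free product of two groups, written down
as a multiplicative function.
-/

namespace Pool.Agent.W2helper27.RP

open Monoid

section green

variable {M : Type} [Group M] [DecidableEq M]

/-- words of the free product -/
abbrev WW (M : Type) [Group M] : Type := CoprodI.Word (fun _ : Bool => M)

/-- the multiplicative function attached to two functions on the factors -/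
def mw (φ : Bool → M → ℝ) (w : WW M) : ℝ := (w.toList.map fun x => φ x.1 x.2).prod

lemma mw_rcons (φ : Bool → M → ℝ) (hφ : ∀ i, φ i 1 = 1) (i : Bool)
    (p : CoprodI.Word.Pair (fun _ : Bool => M) i) :
    mw φ (CoprodI.Word.rcons p) = φ i p.head * mw φ p.tail := by
  unfold CoprodI.Word.rcons
  split_ifs with h
  · rw [h, hφ, one_mul]
  · simp [mw]

lemma mw_eq (φ : Bool → M → ℝ) (hφ : ∀ i, φ i 1 = 1) (i : Bool) (w : WW M) :
    mw φ w = φ i (CoprodI.Word.equivPair i w).head * mw φ (CoprodI.Word.equivPair i w).tail := by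
  conv_lhs => rw [← (CoprodI.Word.equivPair i).symm_apply_apply w, CoprodI.Word.equivPair_symm]
  rw [mw_rcons φ hφ]

lemma mw_smul (φ : Bool → M → ℝ) (hφ : ∀ i, φ i 1 = 1) (i : Bool) (m : M) (w : WW M) :
    mw φ ((inc i m : GG M) • w) =
      φ i (m * (CoprodI.Word.equivPair i w).head) * mw φ (CoprodI.Word.equivPair i w).tail := by
  rw [CoprodI.Word.of_smul_def, mw_rcons φ hφ]

lemma head_cases (w : WW M) :
    (w = CoprodI.Word.empty ∧ ∀ i, (CoprodI.Word.equivPair i w).head = 1) ∨
    (w ≠ CoprodI.Word.empty ∧ ∃ i, (CoprodI.Word.equivPair i w).head ≠ 1 ∧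
      (CoprodI.Word.equivPair (!i) w).head = 1) := by
  induction w using CoprodI.Word.consRecOn with
  | empty =>
    left
    refine ⟨rfl, fun i => ?_⟩
    have : CoprodI.Word.fstIdx (CoprodI.Word.empty : WW M) ≠ some i := by
      simp [CoprodI.Word.fstIdx, CoprodI.Word.empty]
    rw [CoprodI.Word.equivPair_eq_of_fstIdx_ne this]
  | cons i m w h1 h2 ih =>
    right
    refine ⟨?_, i, ?_, ?_⟩
    · intro h
      have := congrArg CoprodI.Word.toList h
      simp at this
    · rw [CoprodI.Word.cons_eq_smul, CoprodI.Word.equivPair_smul_same,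
        CoprodI.Word.equivPair_eq_of_fstIdx_ne h1]
      simpa using h2
    · have : CoprodI.Word.fstIdx (CoprodI.Word.cons m w h1 h2) ≠ some (!i) := by
        rw [CoprodI.Word.fstIdx_cons]
        cases i <;> simp
      rw [CoprodI.Word.equivPair_eq_of_fstIdx_ne this]

/-- the transition operator -/
def Nop {ι κ : Type} [Fintype ι] [Fintype κ] (u : ι → M) (v : κ → M) (a b : ℝ)
    (f : GG M → ℝ) (g : GG M) : ℝ :=
  a * ∑ j, f (inc true (u j) * g) + b * ∑ j, f (inc false (v j) * g)

lemma equiv_mul (x g : GG M) :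
    (CoprodI.Word.equiv (x * g) : WW M) = x • (CoprodI.Word.equiv g : WW M) := by
  show (x * g) • (CoprodI.Word.empty : WW M) = x • (g • (CoprodI.Word.empty : WW M))
  rw [mul_smul]

/-- the candidate Green function -/
def grn (φ : Bool → M → ℝ) (Gf : ℝ) (g : GG M) : ℝ := Gf * mw φ (CoprodI.Word.equiv g)

lemma equiv_eq_empty_iff (g : GG M) :
    (CoprodI.Word.equiv g : WW M) = CoprodI.Word.empty ↔ g = 1 := by
  constructor
  · intro h
    have := CoprodI.Word.equiv.symm_apply_apply g
    rw [h] at this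
    exact this.symm
  · rintro rfl
    show (1 : GG M) • (CoprodI.Word.empty : WW M) = _
    rw [one_smul]

lemma grn_one (φ : Bool → M → ℝ) (Gf : ℝ) : grn φ Gf 1 = Gf := by
  unfold grn
  rw [(equiv_eq_empty_iff (1 : GG M)).2 rfl]
  simp [mw]

theorem grn_eq {ι κ : Type} [Fintype ι] [Fintype κ] (u : ι → M) (v : κ → M) (a b z : ℝ)
    (φ : Bool → M → ℝ) (hφ : ∀ i, φ i 1 = 1) (ga gb za zb Gf a' b' : ℝ)
    (hga : ga ≠ 0) (hgb : gb ≠ 0) (hGf : Gf ≠ 0) (hG : Gf = ga + gb - 1)
    (ha : ∀ x, φ true x = (if x = 1 then 1 / ga else 0) + za * (a' * ∑ j, φ true (u j * x)))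
    (hb : ∀ x, φ false x = (if x = 1 then 1 / gb else 0) + zb * (b' * ∑ j, φ false (v j * x)))
    (hza : z * a = za * ga * a' / Gf) (hzb : z * b = zb * gb * b' / Gf) (g : GG M) :
    grn φ Gf g = (if g = 1 then 1 else 0) + z * Nop u v a b (grn φ Gf) g := by
  set w : WW M := CoprodI.Word.equiv g with hw
  have e1 : ∀ (i : Bool) (m : M), grn φ Gf (inc i m * g) =
      Gf * (φ i (m * (CoprodI.Word.equivPair i w).head) *
        mw φ (CoprodI.Word.equivPair i w).tail) := by
    intro i m
    unfold grn
    rw [equiv_mul, mw_smul φ hφ]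
  have e2 : grn φ Gf g = Gf * mw φ w := rfl
  have e3 : z * Nop u v a b (grn φ Gf) g =
      ga * (za * (a' * ∑ j, φ true (u j * (CoprodI.Word.equivPair true w).head))) *
        mw φ (CoprodI.Word.equivPair true w).tail +
      gb * (zb * (b' * ∑ j, φ false (v j * (CoprodI.Word.equivPair false w).head))) *
        mw φ (CoprodI.Word.equivPair false w).tail := by
    unfold Nop
    simp only [e1]
    rw [mul_add, ← mul_assoc, ← mul_assoc z b, hza, hzb]
    simp only [← Finset.mul_sum, ← Finset.sum_mul]
    field_simp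
  have h1 := ha (CoprodI.Word.equivPair true w).head
  have h2 := hb (CoprodI.Word.equivPair false w).head
  have e4 : za * (a' * ∑ j, φ true (u j * (CoprodI.Word.equivPair true w).head)) =
      φ true (CoprodI.Word.equivPair true w).head -
        (if (CoprodI.Word.equivPair true w).head = 1 then 1 / ga else 0) := by linarith
  have e5 : zb * (b' * ∑ j, φ false (v j * (CoprodI.Word.equivPair false w).head)) =
      φ false (CoprodI.Word.equivPair false w).head -
        (if (CoprodI.Word.equivPair false w).head = 1 then 1 / gb else 0) := by linarith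
  have m1 := mw_eq φ hφ true w
  have m2 := mw_eq φ hφ false w
  rw [e3, e4, e5, e2]
  rcases head_cases w with ⟨hw0, hh⟩ | ⟨hw0, i, hi1, hi2⟩
  · have hg1 : g = 1 := (equiv_eq_empty_iff g).1 hw0
    have hh1 := hh true
    have hh2 := hh false
    rw [hh1, hφ, one_mul] at m1
    rw [hh2, hφ, one_mul] at m2
    rw [if_pos hg1, hh1, hh2, hφ, hφ, if_pos rfl, if_pos rfl, ← m1, ← m2]
    have hmw : mw φ w = 1 := by rw [hw0]; simp [mw]
    rw [hmw, hG]
    field_simp
    ring
  · have hg1 : g ≠ 1 := fun h => hw0 ((equiv_eq_empty_iff g).2 h)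
    rw [if_neg hg1]
    cases i
    · change (CoprodI.Word.equivPair true w).head = 1 at hi2
      rw [hi2, hφ, one_mul] at m1
      rw [hi2, hφ, if_pos rfl, if_neg hi1, ← m1, sub_zero, mul_assoc gb, ← m2, hG]
      field_simp
      ring
    · change (CoprodI.Word.equivPair false w).head = 1 at hi2
      rw [hi2, hφ, one_mul] at m2
      rw [hi2, hφ, if_pos rfl, if_neg hi1, ← m2, sub_zero, mul_assoc ga, ← m1, hG]
      field_simp
      ring

end green

end Pool.Agent.W2helper27.RP
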