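import Mathlib
import Pool.Agent.W2helper27.RP.Cancel

set_option autoImplicit false

/-!
Property RD for the free product of two copies of `ℤ⁶`.
-/

namespace Pool.Agent.W2helper27.RP

open Monoid

/-- the group `ℤ⁶` -/
abbrev M6 : Type := Multiplicative (Fin 6 → ℤ)

/-- the group `ℤ⁶ * ℤ⁶` -/
abbrev G6 : Type := GG M6

/-- boxes -/
noncomputable def bx (r : ℕ) : Finset M6 :=
  (Fintype.piFinset fun _ : Fin 6 => Finset.Icc (-(r : ℤ)) r).image Multiplicative.ofAdd

lemma mem_bx {r : ℕ} {m : M6} : m ∈ bx r ↔ ∀ j, |m.toAdd j| ≤ r := by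
  unfold bx
  rw [Finset.mem_image]
  constructor
  · rintro ⟨x, hx, rfl⟩ j
    have := Finset.mem_Icc.1 (Fintype.mem_piFinset.1 hx j)
    rw [abs_le]
    exact this
  · intro h
    refine ⟨m.toAdd, Fintype.mem_piFinset.2 fun j => Finset.mem_Icc.2 (abs_le.1 (h j)), rfl⟩

lemma card_bx (r : ℕ) : (bx r).card ≤ (2 * r + 1) ^ 6 := by
  unfold bx
  refine Finset.card_image_le.trans ?_
  rw [Fintype.card_piFinset]
  simp only [Int.card_Icc, Finset.prod_const, Finset.card_univ, Fintype.card_fin]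
  apply Nat.pow_le_pow_left
  omega

lemma bx_mul {r s : ℕ} {m m' : M6} (h : m ∈ bx r) (h' : m' ∈ bx s) : m * m' ∈ bx (r + s) := by
  rw [mem_bx] at *
  intro j
  have h1 := h j
  have h2 := h' j
  rw [toAdd_mul, Pi.add_apply]
  push_cast
  exact (abs_add_le _ _).trans (add_le_add h1 h2)

lemma bx_mono {r s : ℕ} (hrs : r ≤ s) {m : M6} (h : m ∈ bx r) : m ∈ bx s := by
  rw [mem_bx] at *
  intro j
  exact (h j).trans (by exact_mod_cast hrs)

/-- the standard generators -/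
noncomputable def S6 : Finset G6 :=
  Finset.univ.image (fun p : Bool × Fin 6 => inc p.1 (Multiplicative.ofAdd (Pi.single p.2 (1 : ℤ))))

lemma S6_letter {y : G6} (hy : y ∈ S6 ∨ y⁻¹ ∈ S6) : ∃ (i : Bool) (m : M6), m ∈ bx 1 ∧ y = inc i m := by
  have key : ∀ y : G6, y ∈ S6 → ∃ (i : Bool) (m : M6), m ∈ bx 1 ∧ m⁻¹ ∈ bx 1 ∧ y = inc i m := by
    intro y hy
    unfold S6 at hy
    rw [Finset.mem_image] at hy
    obtain ⟨⟨i, j⟩, -, rfl⟩ := hy
    refine ⟨i, _, ?_, ?_, rfl⟩
    · rw [mem_bx]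
      intro k
      by_cases h : k = j
      · subst h; simp
      · simp [Pi.single_eq_of_ne h]
    · rw [mem_bx]
      intro k
      by_cases h : k = j
      · subst h; simp
      · simp [Pi.single_eq_of_ne h]
  rcases hy with hy | hy
  · obtain ⟨i, m, h1, -, h2⟩ := key y hy
    exact ⟨i, m, h1, h2⟩
  · obtain ⟨i, m, -, h1, h2⟩ := key _ hy
    refine ⟨i, m⁻¹, h1, ?_⟩
    rw [map_inv, ← h2, inv_inv]

lemma inc_mem_closure (i : Bool) (m : M6) : inc i m ∈ Subgroup.closure (S6 : Set G6) := by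
  have h2 : m = ∏ j : Fin 6, (Multiplicative.ofAdd (Pi.single j (1 : ℤ) : Fin 6 → ℤ)) ^ (m.toAdd j) := by
    apply Multiplicative.toAdd.injective
    rw [toAdd_prod]
    simp only [toAdd_zpow, toAdd_ofAdd]
    funext k
    rw [Finset.sum_apply]
    simp only [Pi.smul_apply, smul_eq_mul, Pi.single_apply]
    simp
  have h3 : m ∈ (Subgroup.closure (S6 : Set G6)).comap (inc i) := by
    rw [h2]
    refine Subgroup.prod_mem _ fun j _ => ?_
    refine Subgroup.zpow_mem _ ?_ _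
    rw [Subgroup.mem_comap]
    refine Subgroup.subset_closure ?_
    unfold S6
    rw [Finset.coe_image]
    exact ⟨(i, j), Finset.mem_coe.2 (Finset.mem_univ _), rfl⟩
  exact h3

lemma closure_S6 : Subgroup.closure (S6 : Set G6) = ⊤ := by
  rw [eq_top_iff]
  intro g _
  induction g using CoprodI.induction_on with
  | one => exact Subgroup.one_mem _
  | of i m => exact inc_mem_closure i m
  | mul x y hx hy => exact Subgroup.mul_mem _ (hx trivial) (hy trivial)

lemma tl_inc_mul (i : Bool) (m : M6) (g : G6) (r : ℕ) (hm : m ∈ bx 1)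
    (h1 : (tl g).length ≤ r) (h2 : ∀ x ∈ tl g, x.2 ∈ bx r) :
    (tl (inc i m * g)).length ≤ r + 1 ∧ ∀ x ∈ tl (inc i m * g), x.2 ∈ bx (r + 1) := by
  have e : CoprodI.Word.equiv (inc i m * g) = (inc i m : G6) • CoprodI.Word.equiv g := by
    show (inc i m * g) • (CoprodI.Word.empty : CoprodI.Word (fun _ : Bool => M6)) =
      (inc i m : G6) • (g • (CoprodI.Word.empty : CoprodI.Word (fun _ : Bool => M6)))
    rw [mul_smul]
  set w := CoprodI.Word.equiv g with hw
  have e' : tl (inc i m * g) = ((inc i m : G6) • w).toList := by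
    unfold tl; rw [e]
  rw [e']
  constructor
  · rw [CoprodI.Word.of_smul_def]
    have h3 : (CoprodI.Word.equivPair i w).tail.toList.length ≤ w.toList.length := by
      have h4 : CoprodI.Word.rcons (CoprodI.Word.equivPair i w) = w :=
        (CoprodI.Word.equivPair i).symm_apply_apply w
      conv_rhs => rw [← h4]
      unfold CoprodI.Word.rcons
      split_ifs
      · exact le_rfl
      · simp
    have h5 : w.toList.length ≤ r := h1
    unfold CoprodI.Word.rcons
    split_ifs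
    · simp only; omega
    · simp only [CoprodI.Word.cons_toList, List.length_cons]; omega
  · rintro ⟨j, x⟩ hx
    rw [CoprodI.Word.mem_smul_iff] at hx
    have h6 : ∀ j' (x' : M6), (⟨j', x'⟩ : Syl M6) ∈ w.toList → x' ∈ bx r := fun j' x' h => h2 ⟨j', x'⟩ h
    rcases hx with ⟨-, hx⟩ | ⟨-, hij, hx | ⟨m', hx, hx'⟩ | ⟨-, hx⟩⟩
    · exact bx_mono (by omega) (h6 _ _ hx)
    · exact bx_mono (by omega) (h6 _ _ (List.mem_of_mem_tail hx))
    · subst hij
      have h7 : x = m * m' := hx'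
      rw [h7, add_comm]
      exact bx_mul hm (h6 _ _ (List.mem_of_mem_head? hx))
    · subst hij
      have h7 : x = m := hx
      rw [h7]
      exact bx_mono (by omega) hm

lemma tl_letters : ∀ l : List G6, (∀ y ∈ l, y ∈ S6 ∨ y⁻¹ ∈ S6) →
    (tl l.prod).length ≤ l.length ∧ ∀ x ∈ tl l.prod, x.2 ∈ bx l.length := by
  intro l
  induction l with
  | nil =>
    intro _
    have : tl (1 : G6) = [] := by
      have := tl_pr (M := M6) (l := []) ⟨by simp, List.isChain_nil⟩
      simpa using this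
    simp [this]
  | cons y l ih =>
    intro h
    obtain ⟨h1, h2⟩ := ih fun z hz => h z (List.mem_cons_of_mem _ hz)
    obtain ⟨i, m, hm, rfl⟩ := S6_letter (h y List.mem_cons_self)
    rw [List.prod_cons, List.length_cons]
    exact tl_inc_mul i m _ _ hm h1 h2

/-- word length -/
noncomputable def wl (g : G6) : ℕ :=
  sInf {n : ℕ | ∃ l : List G6, l.length = n ∧ (∀ y ∈ l, y ∈ S6 ∨ y⁻¹ ∈ S6) ∧ l.prod = g}

lemma wl_spec (g : G6) : (tl g).length ≤ wl g ∧ ∀ x ∈ tl g, x.2 ∈ bx (wl g) := by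
  have hne : {n : ℕ | ∃ l : List G6, l.length = n ∧ (∀ y ∈ l, y ∈ S6 ∨ y⁻¹ ∈ S6) ∧
      l.prod = g}.Nonempty := by
    have hg : g ∈ Subgroup.closure (S6 : Set G6) := by rw [closure_S6]; trivial
    rw [← Subgroup.mem_toSubmonoid, Subgroup.closure_toSubmonoid] at hg
    obtain ⟨l, h1, h2⟩ := Submonoid.exists_list_of_mem_closure hg
    exact ⟨l.length, l, rfl, h1, h2⟩
  obtain ⟨l, h1, h2, h3⟩ := Nat.sInf_mem hne
  have := tl_letters l h2
  rw [h3, h1] at this
  exact this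

/-- types -/
noncomputable def TT (r : ℕ) : Finset (ℕ × ℕ × G6) :=
  (Finset.range (r + 1)) ×ˢ (Finset.range (r + 1)) ×ˢ
    ((Finset.univ ×ˢ bx r).image fun p : Bool × M6 => (inc p.1 p.2 : G6))

lemma card_TT (r : ℕ) : ((TT r).card : ℝ) ≤ ((r : ℝ) + 1) ^ 15 := by
  rcases Nat.eq_zero_or_pos r with rfl | hr
  · have : TT 0 ⊆ {(0, 0, 1)} := by
      intro x hx
      unfold TT at hx
      rw [Finset.mem_product, Finset.mem_product, Finset.mem_image] at hx
      obtain ⟨h1, h2, p, hp, h3⟩ := hx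
      rw [Finset.mem_singleton]
      have h4 : p.2 = 1 := by
        have := mem_bx.1 (Finset.mem_product.1 hp).2
        apply Multiplicative.toAdd.injective
        funext j
        have h5 := this j
        simp only [Nat.cast_zero, abs_nonpos_iff] at h5
        rw [h5]; rfl
      rw [h4, map_one] at h3
      simp only [zero_add, Finset.range_one, Finset.mem_singleton] at h1 h2
      ext <;> simp [h1, h2, h3]
    have h2 := Finset.card_le_card this
    simp only [Finset.card_singleton] at h2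
    simp only [Nat.cast_zero, zero_add, one_pow]
    exact_mod_cast h2
  · have h1 : (TT r).card ≤ (r + 1) * ((r + 1) * (2 * (2 * r + 1) ^ 6)) := by
      unfold TT
      rw [Finset.card_product, Finset.card_product, Finset.card_range]
      refine Nat.mul_le_mul_left _ (Nat.mul_le_mul_left _ ?_)
      refine Finset.card_image_le.trans ?_
      rw [Finset.card_product, Finset.card_univ, Fintype.card_bool]
      exact Nat.mul_le_mul_left _ (card_bx r)
    have h2 : (r + 1) * ((r + 1) * (2 * (2 * r + 1) ^ 6)) ≤ (r + 1) ^ 15 := by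
      have h3 : (2 * r + 1) ^ 6 ≤ (2 * (r + 1)) ^ 6 := Nat.pow_le_pow_left (by omega) 6
      have h4 : 2 ^ 7 ≤ (r + 1) ^ 7 := Nat.pow_le_pow_left (by omega) 7
      calc (r + 1) * ((r + 1) * (2 * (2 * r + 1) ^ 6))
          ≤ (r + 1) * ((r + 1) * (2 * (2 * (r + 1)) ^ 6)) := by gcongr
        _ = 2 ^ 7 * (r + 1) ^ 8 := by ring
        _ ≤ (r + 1) ^ 7 * (r + 1) ^ 8 := Nat.mul_le_mul_right _ h4
        _ = (r + 1) ^ 15 := by ring
    have h3 : ((TT r).card : ℝ) ≤ (((r + 1) ^ 15 : ℕ) : ℝ) := by exact_mod_cast h1.trans h2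
    refine h3.trans (le_of_eq ?_)
    push_cast
    ring

/-- The trilinear estimate. -/
theorem tri (r : ℕ) (A B C : Finset G6) (f g h : G6 → ℝ) (hA : ∀ a ∈ A, wl a ≤ r)
    (hf : ∀ a ∈ A, 0 ≤ f a) (hg : ∀ b ∈ B, 0 ≤ g b) (hC : ∀ a ∈ A, ∀ b ∈ B, a * b ∈ C)
    (hh : ∀ c ∈ C, 0 ≤ h c) :
    ∑ a ∈ A, ∑ b ∈ B, f a * g b * h (a * b)
      ≤ ((r : ℝ) + 1) ^ 15 * (Real.sqrt (∑ a ∈ A, f a ^ 2) * Real.sqrt (∑ b ∈ B, g b ^ 2) *
        Real.sqrt (∑ c ∈ C, h c ^ 2)) := by
  refine (Pool.Agent.Helper23.Haagerup.many_types (TT r) (fun t x => pre t.1 x)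
    (fun t x => pre t.2.1 x * t.2.2⁻¹) A B f g h hf hg C hC hh ?_).trans ?_
  · intro a ha b _
    obtain ⟨i, j, α, hi, hj, hα, h1, h2⟩ := cancel a b
    obtain ⟨h3, h4⟩ := wl_spec a
    have h5 := hA a ha
    refine ⟨(i, j, α), ?_, h1, h2⟩
    unfold TT
    rw [Finset.mem_product, Finset.mem_product, Finset.mem_range, Finset.mem_range,
      Finset.mem_image]
    refine ⟨by simp only; omega, by simp only; omega, ?_⟩
    rcases hα with rfl | ⟨x, hx, rfl⟩
    · refine ⟨(true, 1), Finset.mem_product.2 ⟨Finset.mem_univ _, ?_⟩, map_one _⟩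
      rw [mem_bx]; intro j; simp
    · exact ⟨(x.1, x.2), Finset.mem_product.2 ⟨Finset.mem_univ _, bx_mono h5 (h4 x hx)⟩, rfl⟩
  · exact mul_le_mul_of_nonneg_right (card_TT r) (by positivity)

/-- Property RD. -/
theorem rd6 : ∃ (C : ℝ) (s : ℕ), ∀ f g : G6 →₀ ℝ, ∀ T : Finset G6,
    ∑ x ∈ T, (f.sum (fun y a => a * g (y⁻¹ * x))) ^ 2 ≤
      C * (f.sum (fun x a => a ^ 2 *
            (1 + ((sInf {n : ℕ | ∃ l : List G6, l.length = n ∧
                (∀ y ∈ l, y ∈ S6 ∨ y⁻¹ ∈ S6) ∧ l.prod = x} : ℕ) : ℝ)) ^ (2 * s)))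
        * g.sum (fun _ a => a ^ 2) := by
  refine ⟨4, 17, fun f g T => ?_⟩
  set F : G6 →₀ ℂ := f.mapRange (fun x : ℝ => (x : ℂ)) (by simp) with hF
  set ξ : G6 → ℂ := fun x => (g x : ℂ) with hξ
  obtain ⟨B, hB⟩ := Pool.Agent.Helper23.Haagerup.rd_core wl 15 tri F ξ T
  have hsupp : F.support = f.support := by
    ext x
    simp [hF]
  have e1 : ∀ x, Pool.Agent.Helper23.Haagerup.cv F ξ x =
      ((f.sum (fun y a => a * g (y⁻¹ * x)) : ℝ) : ℂ) := by
    intro x
    unfold Pool.Agent.Helper23.Haagerup.cv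
    rw [hsupp, Finsupp.sum]
    push_cast
    rfl
  have e2 : ∀ x, ‖Pool.Agent.Helper23.Haagerup.cv F ξ x‖ ^ 2 =
      (f.sum (fun y a => a * g (y⁻¹ * x))) ^ 2 := by
    intro x
    rw [e1, Complex.norm_real, Real.norm_eq_abs, sq_abs]
  have e3 : ∀ y, ‖F y‖ ^ 2 = f y ^ 2 := by
    intro y
    rw [hF, Finsupp.mapRange_apply, Complex.norm_real, Real.norm_eq_abs, sq_abs]
  have e4 : ∀ y, ‖ξ y‖ ^ 2 = g y ^ 2 := by
    intro y
    rw [hξ]
    simp only
    rw [Complex.norm_real, Real.norm_eq_abs, sq_abs]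
  simp only [e2, e3, e4, hsupp] at hB
  have h1 : (0 : ℝ) ≤ ∑ x ∈ T, (f.sum (fun y a => a * g (y⁻¹ * x))) ^ 2 :=
    Finset.sum_nonneg fun _ _ => by positivity
  have h2 := pow_le_pow_left₀ (Real.sqrt_nonneg _) hB 2
  rw [Real.sq_sqrt h1, mul_pow, mul_pow, Real.sq_sqrt (Finset.sum_nonneg fun _ _ => by positivity),
    Real.sq_sqrt (Finset.sum_nonneg fun _ _ => by positivity)] at h2
  refine h2.trans ?_
  have h3 : ∑ y ∈ B, g y ^ 2 ≤ g.sum (fun _ a => a ^ 2) := by
    rw [Finsupp.sum]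
    calc ∑ y ∈ B, g y ^ 2 = ∑ y ∈ B.filter (fun y => y ∈ g.support), g y ^ 2 := by
          rw [Finset.sum_filter]
          refine Finset.sum_congr rfl fun y _ => ?_
          split_ifs with h
          · rfl
          · rw [Finsupp.notMem_support_iff.1 h]; simp
      _ ≤ _ := by
          apply Finset.sum_le_sum_of_subset_of_nonneg
          · intro y hy; exact (Finset.mem_filter.1 hy).2
          · intro _ _ _; positivity
  have h4 : ∑ y ∈ f.support, f y ^ 2 * ((wl y : ℝ) + 1) ^ (2 * (15 + 2)) =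
      f.sum (fun x a => a ^ 2 *
            (1 + ((sInf {n : ℕ | ∃ l : List G6, l.length = n ∧
                (∀ y ∈ l, y ∈ S6 ∨ y⁻¹ ∈ S6) ∧ l.prod = x} : ℕ) : ℝ)) ^ (2 * 17)) := by
    rw [Finsupp.sum]
    refine Finset.sum_congr rfl fun y _ => ?_
    unfold wl
    rw [add_comm (1 : ℝ)]
  rw [h4]
  have h5 : (2 : ℝ) ^ 2 = 4 := by norm_num
  rw [h5]
  refine mul_le_mul_of_nonneg_left h3 ?_
  rw [← h4]
  positivity

end Pool.Agent.W2helper27.RP
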