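import Mathlib
import Pool.Agent.W2helper27.RP.RD

set_option autoImplicit false

/-!
The two walks on `ℤ⁶`: the product of six simple walks, and the simple walk on a line.
-/

namespace Pool.Agent.W2helper27.RP

open Monoid

/-- the law of the simple walk on the integers -/
noncomputable def qq : ℕ → ℤ → ℝ
  | 0, m => if m = 0 then 1 else 0
  | n + 1, m => (qq n (m - 1) + qq n (m + 1)) / 2

lemma qq_nonneg : ∀ n m, 0 ≤ qq n m := by
  intro n
  induction n with
  | zero => intro m; unfold qq; split_ifs <;> norm_num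
  | succ n ih =>
    intro m
    unfold qq
    have := ih (m - 1)
    have := ih (m + 1)
    positivity

lemma qq_le_one : ∀ n m, qq n m ≤ 1 := by
  intro n
  induction n with
  | zero => intro m; unfold qq; split_ifs <;> norm_num
  | succ n ih =>
    intro m
    unfold qq
    have := ih (m - 1)
    have := ih (m + 1)
    linarith

lemma qq_low : ∀ (n : ℕ) (m : ℤ), m < -n → qq n m = 0 := by
  intro n
  induction n with
  | zero =>
    intro m hm
    unfold qq
    rw [if_neg]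
    intro h
    simp [h] at hm
  | succ n ih =>
    intro m hm
    unfold qq
    push_cast at hm
    rw [ih (m - 1) (by omega), ih (m + 1) (by omega)]
    norm_num

lemma qq_choose : ∀ (n j : ℕ), qq n (2 * j - n) = (n.choose j : ℝ) / 2 ^ n := by
  intro n
  induction n with
  | zero =>
    intro j
    unfold qq
    rcases Nat.eq_zero_or_pos j with rfl | hj
    · simp
    · rw [if_neg, Nat.choose_eq_zero_of_lt hj]
      · simp
      · intro h
        simp at h
        omega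
  | succ n ih =>
    intro j
    rcases j with _ | j
    · unfold qq
      have e1 : (2 * ((0 : ℕ) : ℤ) - ((n + 1 : ℕ) : ℤ) - 1) = -(n : ℤ) - 2 := by push_cast; ring
      have e2 : (2 * ((0 : ℕ) : ℤ) - ((n + 1 : ℕ) : ℤ) + 1) = 2 * ((0 : ℕ) : ℤ) - n := by
        push_cast; ring
      rw [e1, e2, ih 0, qq_low n _ (by omega)]
      simp
      rw [pow_succ]
      field_simp
    · unfold qq
      have e1 : (2 * ((j + 1 : ℕ) : ℤ) - ((n + 1 : ℕ) : ℤ) - 1) = 2 * (j : ℤ) - n := by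
        push_cast; ring
      have e2 : (2 * ((j + 1 : ℕ) : ℤ) - ((n + 1 : ℕ) : ℤ) + 1) = 2 * ((j + 1 : ℕ) : ℤ) - n := by
        push_cast; ring
      rw [e1, e2, ih j, ih (j + 1), Nat.choose_succ_succ]
      push_cast
      rw [pow_succ]
      field_simp

lemma qq_even (n : ℕ) : qq (2 * n) 0 = (n.centralBinom : ℝ) / 4 ^ n := by
  have := qq_choose (2 * n) n
  have e : (2 * (n : ℤ) - ((2 * n : ℕ) : ℤ)) = 0 := by push_cast; ring
  rw [e] at this
  rw [this, Nat.centralBinom, pow_mul]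
  norm_num

lemma qq_parity : ∀ (n : ℕ) (m : ℤ), (n + m) % 2 = 1 → qq n m = 0 := by
  intro n
  induction n with
  | zero =>
    intro m hm
    unfold qq
    rw [if_neg]
    rintro rfl
    simp at hm
  | succ n ih =>
    intro m hm
    unfold qq
    push_cast at hm
    rw [ih (m - 1) (by omega), ih (m + 1) (by omega)]
    norm_num

lemma qq_odd (n : ℕ) : qq (2 * n + 1) 0 = 0 := qq_parity _ _ (by push_cast; omega)

/-- the law of the product walk -/
noncomputable def hh (k : ℕ) (x : Fin 6 → ℤ) : ℝ := ∏ i, qq k (x i)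

lemma hh_nonneg (k : ℕ) (x : Fin 6 → ℤ) : 0 ≤ hh k x :=
  Finset.prod_nonneg fun _ _ => qq_nonneg _ _

lemma hh_le_one (k : ℕ) (x : Fin 6 → ℤ) : hh k x ≤ 1 :=
  Finset.prod_le_one (fun _ _ => qq_nonneg _ _) fun _ _ => qq_le_one _ _

lemma hh_zero (x : Fin 6 → ℤ) : hh 0 x = if x = 0 then 1 else 0 := by
  unfold hh
  split_ifs with h
  · subst h
    simp [qq]
  · obtain ⟨i, hi⟩ : ∃ i, x i ≠ 0 := by
      by_contra hcon
      push Not at hcon
      exact h (funext hcon)
    refine Finset.prod_eq_zero (Finset.mem_univ i) ?_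
    unfold qq
    rw [if_neg hi]

/-- signs -/
def sg (e : Bool) : ℤ := if e then 1 else -1

/-- the steps of the product walk -/
def uu (ε : Fin 6 → Bool) : M6 := Multiplicative.ofAdd fun i => sg (ε i)

/-- the steps of the line walk -/
def vv (e : Bool) : M6 := Multiplicative.ofAdd (Pi.single 0 (sg e))

lemma hh_succ (k : ℕ) (x : M6) :
    hh (k + 1) x.toAdd = 1 / 64 * ∑ ε, hh k (uu ε * x).toAdd := by
  have h1 : ∀ i : Fin 6, qq (k + 1) (x.toAdd i) = (1 / 2) * ∑ e : Bool, qq k (sg e + x.toAdd i) := by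
    intro i
    rw [Fintype.sum_bool]
    unfold sg
    rw [qq]
    simp only [if_true, Bool.false_eq_true, if_false]
    rw [show x.toAdd i - 1 = -1 + x.toAdd i by ring, show x.toAdd i + 1 = 1 + x.toAdd i by ring]
    ring
  unfold hh
  simp only [h1]
  rw [Finset.prod_mul_distrib, Finset.prod_univ_sum, Fintype.piFinset_univ]
  simp only [Finset.prod_const, Finset.card_univ, Fintype.card_fin]
  norm_num
  rfl

/-- the generating function of the product walk -/
noncomputable def gs (ζ : ℝ) (x : Fin 6 → ℤ) : ℝ := ∑' k, ζ ^ k * hh k x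

lemma gs_summable {ζ : ℝ} (h0 : 0 ≤ ζ) (h1 : ζ < 1) (x : Fin 6 → ℤ) :
    Summable fun k => ζ ^ k * hh k x := by
  refine Summable.of_nonneg_of_le (fun k => mul_nonneg (pow_nonneg h0 _) (hh_nonneg _ _))
    (fun k => ?_) (summable_geometric_of_lt_one h0 h1)
  exact mul_le_of_le_one_right (pow_nonneg h0 _) (hh_le_one _ _)

lemma gs_eq {ζ : ℝ} (h0 : 0 ≤ ζ) (h1 : ζ < 1) (x : M6) :
    gs ζ x.toAdd = (if x = 1 then 1 else 0) + ζ * (1 / 64 * ∑ ε, gs ζ (uu ε * x).toAdd) := by
  unfold gs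
  rw [(gs_summable h0 h1 _).tsum_eq_zero_add]
  congr 1
  · rw [pow_zero, one_mul, hh_zero]
    rfl
  · rw [← Summable.tsum_finsetSum fun ε _ => gs_summable h0 h1 _, ← tsum_mul_left, ← tsum_mul_left]
    refine tsum_congr fun k => ?_
    rw [hh_succ, Finset.mul_sum, Finset.mul_sum, Finset.mul_sum, Finset.mul_sum]
    refine Finset.sum_congr rfl fun ε _ => ?_
    ring

lemma gs_nonneg {ζ : ℝ} (h0 : 0 ≤ ζ) (x : Fin 6 → ℤ) : 0 ≤ gs ζ x :=
  tsum_nonneg fun _ => mul_nonneg (pow_nonneg h0 _) (hh_nonneg _ _)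

lemma one_le_gs_zero {ζ : ℝ} (h0 : 0 ≤ ζ) (h1 : ζ < 1) : 1 ≤ gs ζ 0 := by
  unfold gs
  have := (gs_summable h0 h1 0).le_tsum 0 (fun k _ => mul_nonneg (pow_nonneg h0 _) (hh_nonneg _ _))
  rw [pow_zero, one_mul, hh_zero, if_pos rfl] at this
  exact this

lemma gs_le_geom {ζ : ℝ} (h0 : 0 ≤ ζ) (h1 : ζ ≤ 1 / 2) (x : Fin 6 → ℤ) (hx : x ≠ 0) :
    gs ζ x ≤ 1 := by
  have h1' : ζ < 1 := by linarith
  unfold gs
  rw [(gs_summable h0 h1' _).tsum_eq_zero_add, hh_zero, if_neg hx]
  have h2 : Summable fun k => ζ ^ (k + 1) := (summable_nat_add_iff 1).2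
    (summable_geometric_of_lt_one h0 h1')
  have h3 : ∑' k, ζ ^ (k + 1) * hh (k + 1) x ≤ ∑' k, ζ ^ (k + 1) := by
    refine Summable.tsum_le_tsum (fun k => ?_) ((summable_nat_add_iff 1).2 (gs_summable h0 h1' x)) h2
    exact mul_le_of_le_one_right (pow_nonneg h0 _) (hh_le_one _ _)
  have h4 : ∑' k, ζ ^ (k + 1) = ζ * (1 - ζ)⁻¹ := by
    simp only [pow_succ']
    rw [tsum_mul_left, tsum_geometric_of_lt_one h0 h1']
  rw [h4] at h3
  have h5 : ζ * (1 - ζ)⁻¹ ≤ 1 := by
    rw [← div_eq_mul_inv, div_le_one (by linarith)]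
    linarith
  linarith

/-- the first factor function -/
noncomputable def phi0 (ζ : ℝ) (x : M6) : ℝ := gs ζ x.toAdd / gs ζ 0

lemma phi0_one {ζ : ℝ} (h0 : 0 ≤ ζ) (h1 : ζ < 1) : phi0 ζ 1 = 1 := by
  unfold phi0
  have := one_le_gs_zero h0 h1
  exact div_self (by positivity)

lemma phi0_nonneg {ζ : ℝ} (h0 : 0 ≤ ζ) (x : M6) : 0 ≤ phi0 ζ x :=
  div_nonneg (gs_nonneg h0 _) (gs_nonneg h0 _)

lemma phi0_le_one {ζ : ℝ} (h0 : 0 ≤ ζ) (h1 : ζ ≤ 1 / 2) (x : M6) : phi0 ζ x ≤ 1 := by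
  by_cases hx : x.toAdd = 0
  · have : x = 1 := hx
    rw [this, phi0_one h0 (by linarith)]
  · unfold phi0
    have h2 := one_le_gs_zero h0 (by linarith : ζ < 1)
    rw [div_le_one (by linarith)]
    exact (gs_le_geom h0 h1 _ hx).trans h2

lemma phi0_eq {ζ : ℝ} (h0 : 0 ≤ ζ) (h1 : ζ < 1) (x : M6) :
    phi0 ζ x = (if x = 1 then 1 / gs ζ 0 else 0) + ζ * (1 / 64 * ∑ ε, phi0 ζ (uu ε * x)) := by
  have h := gs_eq h0 h1 x
  have h2 := one_le_gs_zero h0 h1
  unfold phi0
  rw [h, add_div]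
  congr 1
  · split_ifs <;> simp
  · rw [← Finset.sum_div]
    ring

/-- the second factor function -/
noncomputable def phi1 (q : ℝ) (x : M6) : ℝ :=
  if ∀ i, i ≠ 0 → x.toAdd i = 0 then q ^ (x.toAdd 0).natAbs else 0

lemma phi1_one (q : ℝ) : phi1 q 1 = 1 := by
  unfold phi1
  simp

lemma phi1_nonneg {q : ℝ} (hq : 0 ≤ q) (x : M6) : 0 ≤ phi1 q x := by
  unfold phi1
  split_ifs <;> positivity

lemma phi1_le_one {q : ℝ} (hq : 0 ≤ q) (hq1 : q ≤ 1) (x : M6) : phi1 q x ≤ 1 := by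
  unfold phi1
  split_ifs
  · exact pow_le_one₀ hq hq1
  · norm_num

lemma phi1_vv (q : ℝ) (e : Bool) (x : M6) : phi1 q (vv e * x) =
    if ∀ i, i ≠ 0 → x.toAdd i = 0 then q ^ (sg e + x.toAdd 0).natAbs else 0 := by
  unfold phi1
  have h1 : ∀ i, i ≠ 0 → (vv e * x).toAdd i = x.toAdd i := by
    intro i hi
    show (Pi.single 0 (sg e) : Fin 6 → ℤ) i + x.toAdd i = _
    rw [Pi.single_eq_of_ne hi, zero_add]
  have h2 : (vv e * x).toAdd 0 = sg e + x.toAdd 0 := by
    show (Pi.single 0 (sg e) : Fin 6 → ℤ) 0 + x.toAdd 0 = _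
    rw [Pi.single_eq_same]
  rw [h2]
  have h3 : (∀ i, i ≠ 0 → (vv e * x).toAdd i = 0) ↔ (∀ i, i ≠ 0 → x.toAdd i = 0) := by
    refine forall_congr' fun i => ?_
    refine imp_congr_right fun hi => ?_
    rw [h1 i hi]
  simp only [h3]

lemma phi1_eq {q : ℝ} (hq : 0 < q) (hq1 : q < 1) (x : M6) :
    phi1 q x = (if x = 1 then 1 / ((1 + q ^ 2) / (1 - q ^ 2)) else 0) +
      (2 * q / (1 + q ^ 2)) * (1 / 2 * ∑ e, phi1 q (vv e * x)) := by
  have hq2 : q ^ 2 < 1 := by nlinarith
  have hne : (1 - q ^ 2) ≠ 0 := by linarith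
  have hne2 : (1 + q ^ 2) ≠ 0 := by positivity
  rw [Fintype.sum_bool, phi1_vv, phi1_vv]
  by_cases h : ∀ i, i ≠ 0 → x.toAdd i = 0
  · have e0 : phi1 q x = q ^ (x.toAdd 0).natAbs := by unfold phi1; rw [if_pos h]
    rw [e0, if_pos h, if_pos h]
    by_cases hx : x.toAdd 0 = 0
    · have hx1 : x = 1 := by
        apply Multiplicative.toAdd.injective
        funext i
        by_cases hi : i = 0
        · subst hi; exact hx
        · exact h i hi
      rw [if_pos hx1, hx]
      simp only [sg, if_true, Bool.false_eq_true, if_false]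
      norm_num
      field_simp
      ring
    · have hx1 : x ≠ 1 := by
        rintro rfl
        exact hx rfl
      rw [if_neg hx1]
      simp only [sg, if_true, Bool.false_eq_true, if_false]
      obtain ⟨n, hn⟩ : ∃ n : ℕ, (x.toAdd 0).natAbs = n + 1 :=
        ⟨(x.toAdd 0).natAbs - 1, by omega⟩
      rcases lt_or_gt_of_ne hx with hneg | hpos
      · have e1 : (1 + x.toAdd 0).natAbs = n := by omega
        have e2 : (-1 + x.toAdd 0).natAbs = n + 2 := by omega
        rw [hn, e1, e2]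
        field_simp
        ring
      · have e1 : (1 + x.toAdd 0).natAbs = n + 2 := by omega
        have e2 : (-1 + x.toAdd 0).natAbs = n := by omega
        rw [hn, e1, e2]
        field_simp
        ring
  · have e0 : phi1 q x = 0 := by unfold phi1; rw [if_neg h]
    have hx1 : x ≠ 1 := by
      rintro rfl
      exact h fun i _ => rfl
    rw [e0, if_neg h, if_neg h, if_neg hx1]
    simp

end Pool.Agent.W2helper27.RP
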