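import Mathlib
import Pool.Agent.W2helper27.RP.Walk
import Pool.Agent.W2helper27.RP.Green

set_option autoImplicit false

/-!
The measure, its operator, its norm and the iteration of the Green function equation.
-/

namespace Pool.Agent.W2helper27.RP

open Monoid

/-- the measure -/
noncomputable def nu (α β : ℝ) : G6 →₀ ℝ :=
  ∑ ε : Fin 6 → Bool, Finsupp.single (inc true (uu ε)) (α * (1 / 64)) +
    ∑ e : Bool, Finsupp.single (inc false (vv e)) (β * (1 / 2))

lemma uu_inv (ε : Fin 6 → Bool) : (uu ε)⁻¹ = uu (fun i => !(ε i)) := by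
  apply Multiplicative.toAdd.injective
  funext i
  show -(sg (ε i)) = sg (!(ε i))
  unfold sg
  cases ε i <;> simp

lemma vv_inv (e : Bool) : (vv e)⁻¹ = vv (!e) := by
  apply Multiplicative.toAdd.injective
  show -(Pi.single 0 (sg e) : Fin 6 → ℤ) = Pi.single 0 (sg (!e))
  rw [← Pi.single_neg]
  congr 1
  cases e <;> simp [sg]

lemma not_bij : Function.Bijective (fun (ε : Fin 6 → Bool) (i : Fin 6) => !(ε i)) := by
  apply Function.Involutive.bijective
  intro ε
  funext i
  simp

lemma not_bij' : Function.Bijective (fun e : Bool => !e) :=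
  Function.Involutive.bijective fun e => by simp

lemma nu_sum (α β : ℝ) (F : G6 → ℝ) : (nu α β).sum (fun y a => a * F y) =
    α * (1 / 64) * ∑ ε, F (inc true (uu ε)) + β * (1 / 2) * ∑ e, F (inc false (vv e)) := by
  have e1 : (nu α β).sum (fun y a => a * F y) = Finsupp.linearCombination ℝ F (nu α β) := by
    rw [Finsupp.linearCombination_apply]
    rfl
  rw [e1]
  unfold nu
  rw [map_add, map_sum, map_sum]
  simp only [Finsupp.linearCombination_single, smul_eq_mul]
  rw [← Finset.mul_sum, ← Finset.mul_sum]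

lemma nu_op (α β : ℝ) (f : G6 → ℝ) (x : G6) : (nu α β).sum (fun y a => a * f (y⁻¹ * x)) =
    Nop uu vv (α * (1 / 64)) (β * (1 / 2)) f x := by
  rw [nu_sum α β (fun y => f (y⁻¹ * x))]
  unfold Nop
  congr 2
  · rw [← not_bij.sum_comp (fun ε => f (inc true (uu ε) * x))]
    refine Finset.sum_congr rfl fun ε _ => ?_
    rw [← uu_inv, map_inv]
  · rw [← not_bij'.sum_comp (fun e => f (inc false (vv e) * x))]
    refine Finset.sum_congr rfl fun e _ => ?_
    rw [← vv_inv, map_inv]

lemma nu_total (α β : ℝ) : (nu α β).sum (fun _ a => a) = α + β := by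
  have := nu_sum α β (fun _ => 1)
  simp only [mul_one] at this
  rw [this]
  simp only [Finset.sum_const, Finset.card_univ, Fintype.card_bool, Fintype.card_pi,
    Finset.prod_const, Fintype.card_fin, nsmul_eq_mul]
  norm_num
  ring

lemma nu_apply (α β : ℝ) (x : G6) : nu α β x =
    ∑ ε : Fin 6 → Bool, (if inc true (uu ε) = x then α * (1 / 64) else 0) +
    ∑ e : Bool, (if inc false (vv e) = x then β * (1 / 2) else 0) := by
  unfold nu
  rw [Finsupp.add_apply, Finsupp.finsetSum_apply, Finsupp.finsetSum_apply]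
  simp only [Finsupp.single_apply]

lemma nu_nonneg {α β : ℝ} (hα : 0 ≤ α) (hβ : 0 ≤ β) (x : G6) : 0 ≤ nu α β x := by
  rw [nu_apply]
  refine add_nonneg (Finset.sum_nonneg fun _ _ => ?_) (Finset.sum_nonneg fun _ _ => ?_)
  · split_ifs <;> positivity
  · split_ifs <;> positivity

lemma nu_symm (α β : ℝ) (x : G6) : nu α β x⁻¹ = nu α β x := by
  rw [nu_apply, nu_apply]
  congr 1
  · rw [← not_bij.sum_comp (fun ε => if inc true (uu ε) = x then α * (1 / 64) else 0)]
    refine Finset.sum_congr rfl fun ε _ => ?_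
    simp only [← uu_inv, map_inv, inv_eq_iff_eq_inv]
  · rw [← not_bij'.sum_comp (fun e => if inc false (vv e) = x then β * (1 / 2) else 0)]
    refine Finset.sum_congr rfl fun e _ => ?_
    simp only [← vv_inv, map_inv, inv_eq_iff_eq_inv]

/-- existence of the norm, for a symmetric probability -/
theorem exists_rho {G : Type} [Group G] (ν : G →₀ ℝ) (h0 : ∀ x, 0 ≤ ν x)
    (h1 : ν.sum (fun _ a => a) = 1) :
    ∃ ρ : ℝ, 0 ≤ ρ ∧
      (∀ g : G →₀ ℝ, ∀ T : Finset G,
        ∑ x ∈ T, (ν.sum (fun y a => a * g (y⁻¹ * x))) ^ 2 ≤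
          ρ ^ 2 * g.sum (fun _ a => a ^ 2)) ∧
      (∀ r : ℝ, 0 ≤ r → r < ρ → ∃ g : G →₀ ℝ, ∃ T : Finset G,
        r ^ 2 * g.sum (fun _ a => a ^ 2) <
          ∑ x ∈ T, (ν.sum (fun y a => a * g (y⁻¹ * x))) ^ 2) := by
  classical
  set P : Set ℝ := {K | 0 ≤ K ∧ ∀ g : G →₀ ℝ, ∀ T : Finset G,
        ∑ x ∈ T, (ν.sum (fun y a => a * g (y⁻¹ * x))) ^ 2 ≤ K * g.sum (fun _ a => a ^ 2)} with hP
  have hbdd : BddBelow P := ⟨0, fun K hK => hK.1⟩
  have hone : (1 : ℝ) ∈ P := by
    refine ⟨zero_le_one, fun g T => ?_⟩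
    have h1' : ∑ y ∈ ν.support, ν y = 1 := h1
    have step : ∀ x, (ν.sum (fun y a => a * g (y⁻¹ * x))) ^ 2 ≤
        ∑ y ∈ ν.support, ν y * g (y⁻¹ * x) ^ 2 := by
      intro x
      have := Finset.sum_mul_sq_le_sq_mul_sq ν.support (fun y => Real.sqrt (ν y))
        (fun y => Real.sqrt (ν y) * g (y⁻¹ * x))
      have e1 : ∑ y ∈ ν.support, Real.sqrt (ν y) * (Real.sqrt (ν y) * g (y⁻¹ * x)) =
          ν.sum (fun y a => a * g (y⁻¹ * x)) := by
        rw [Finsupp.sum]
        refine Finset.sum_congr rfl fun y _ => ?_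
        rw [← mul_assoc, Real.mul_self_sqrt (h0 y)]
      have e2 : ∑ y ∈ ν.support, Real.sqrt (ν y) ^ 2 = 1 := by
        rw [← h1']
        refine Finset.sum_congr rfl fun y _ => ?_
        rw [Real.sq_sqrt (h0 y)]
      have e3 : ∑ y ∈ ν.support, (Real.sqrt (ν y) * g (y⁻¹ * x)) ^ 2 =
          ∑ y ∈ ν.support, ν y * g (y⁻¹ * x) ^ 2 := by
        refine Finset.sum_congr rfl fun y _ => ?_
        rw [mul_pow, Real.sq_sqrt (h0 y)]
      rw [e1, e2, e3, one_mul] at this
      exact this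
    calc ∑ x ∈ T, (ν.sum (fun y a => a * g (y⁻¹ * x))) ^ 2
        ≤ ∑ x ∈ T, ∑ y ∈ ν.support, ν y * g (y⁻¹ * x) ^ 2 := Finset.sum_le_sum fun x _ => step x
      _ = ∑ y ∈ ν.support, ν y * ∑ x ∈ T, g (y⁻¹ * x) ^ 2 := by
          rw [Finset.sum_comm]
          refine Finset.sum_congr rfl fun y _ => ?_
          rw [Finset.mul_sum]
      _ ≤ ∑ y ∈ ν.support, ν y * g.sum (fun _ a => a ^ 2) := by
          refine Finset.sum_le_sum fun y _ => mul_le_mul_of_nonneg_left ?_ (h0 y)
          have hinj : Set.InjOn (fun x => y⁻¹ * x) (T : Set G) := fun a _ b _ h =>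
            mul_left_cancel h
          rw [← Finset.sum_image (g := fun x => y⁻¹ * x) (f := fun z => g z ^ 2) hinj, Finsupp.sum]
          calc ∑ z ∈ T.image (fun x => y⁻¹ * x), g z ^ 2
              = ∑ z ∈ (T.image (fun x => y⁻¹ * x)).filter (fun z => z ∈ g.support), g z ^ 2 := by
                rw [Finset.sum_filter]
                refine Finset.sum_congr rfl fun z _ => ?_
                split_ifs with h
                · rfl
                · rw [Finsupp.notMem_support_iff.1 h]; simp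
            _ ≤ _ := by
                apply Finset.sum_le_sum_of_subset_of_nonneg
                · intro z hz; exact (Finset.mem_filter.1 hz).2
                · intro _ _ _; positivity
      _ = 1 * g.sum (fun _ a => a ^ 2) := by rw [← Finset.sum_mul, h1']
  have hinf0 : 0 ≤ sInf P := le_csInf ⟨1, hone⟩ fun K hK => hK.1
  have hinf : sInf P ∈ P := by
    refine ⟨hinf0, fun g T => ?_⟩
    have hS : 0 ≤ g.sum (fun _ a => a ^ 2) := Finset.sum_nonneg fun _ _ => by positivity
    rcases hS.eq_or_lt with hS | hS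
    · have := hone.2 g T
      rw [← hS] at this ⊢
      simpa using this
    · rw [← div_le_iff₀ hS]
      exact le_csInf ⟨1, hone⟩ fun K hK => (div_le_iff₀ hS).2 (hK.2 g T)
  refine ⟨Real.sqrt (sInf P), Real.sqrt_nonneg _, ?_, ?_⟩
  · rw [Real.sq_sqrt hinf0]
    exact hinf.2
  · intro r hr0 hr
    have hr2 : r ^ 2 < sInf P := by
      have := (Real.lt_sqrt hr0).1 hr
      exact this
    have hnot : r ^ 2 ∉ P := notMem_of_lt_csInf hr2 hbdd
    by_contra hcon
    push Not at hcon
    exact hnot ⟨by positivity, fun g T => hcon g T⟩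

end Pool.Agent.W2helper27.RP
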