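import Mathlib
import Pool.Agent.W2helper27.RP.Nu

set_option autoImplicit false

/-!
Iteration of the Green function equation and parity.
-/

namespace Pool.Agent.W2helper27.RP

open Monoid

/-- the operator -/
noncomputable def NN (α β : ℝ) (f : G6 → ℝ) (x : G6) : ℝ :=
  Nop uu vv (α * (1 / 64)) (β * (1 / 2)) f x

/-- the point mass -/
noncomputable def dl (x : G6) : ℝ := Set.indicator ({1} : Set G6) (fun _ => (1 : ℝ)) x

/-- return probabilities -/
noncomputable def gam (α β : ℝ) (k : ℕ) : ℝ := ((NN α β)^[k] dl) 1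

lemma dl_eq (x : G6) : dl x = if x = 1 then 1 else 0 := by
  unfold dl
  by_cases h : x = 1
  · rw [if_pos h, h]; simp
  · rw [if_neg h, Set.indicator_of_notMem]
    exact h

section

variable (α β : ℝ)

lemma NN_add (f g : G6 → ℝ) : NN α β (fun x => f x + g x) = fun x => NN α β f x + NN α β g x := by
  funext x
  unfold NN Nop
  simp only [Finset.sum_add_distrib]
  ring

lemma NN_smul (c : ℝ) (f : G6 → ℝ) : NN α β (fun x => c * f x) = fun x => c * NN α β f x := by
  funext x
  unfold NN Nop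
  simp only [← Finset.mul_sum]
  ring

lemma NN_iter_add (n : ℕ) : ∀ (f g : G6 → ℝ),
    (NN α β)^[n] (fun x => f x + g x) = fun x => (NN α β)^[n] f x + (NN α β)^[n] g x := by
  induction n with
  | zero => intro f g; rfl
  | succ n ih =>
    intro f g
    rw [Function.iterate_succ_apply, Function.iterate_succ_apply, Function.iterate_succ_apply,
      NN_add, ih]

lemma NN_iter_smul (n : ℕ) : ∀ (c : ℝ) (f : G6 → ℝ),
    (NN α β)^[n] (fun x => c * f x) = fun x => c * (NN α β)^[n] f x := by
  induction n with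
  | zero => intro c f; rfl
  | succ n ih =>
    intro c f
    rw [Function.iterate_succ_apply, Function.iterate_succ_apply, NN_smul, ih]

lemma iter_eq (z : ℝ) (f : G6 → ℝ) (h : ∀ x, f x = dl x + z * NN α β f x) (n : ℕ) :
    ∀ x, f x = ∑ k ∈ Finset.range n, z ^ k * (NN α β)^[k] dl x + z ^ n * (NN α β)^[n] f x := by
  induction n with
  | zero => intro x; simp
  | succ n ih =>
    intro x
    rw [Finset.sum_range_succ, ih x]
    have h1 : f = fun x => dl x + z * NN α β f x := funext h
    have h2 : (NN α β)^[n] f x = (NN α β)^[n] dl x + z * (NN α β)^[n + 1] f x := by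
      conv_lhs => rw [h1]
      rw [NN_iter_add, NN_iter_smul, Function.iterate_succ_apply]
    rw [h2]
    ring

variable {α β}

lemma NN_nonneg (hα : 0 ≤ α) (hβ : 0 ≤ β) {f : G6 → ℝ} (hf : ∀ x, 0 ≤ f x) :
    ∀ x, 0 ≤ NN α β f x := by
  intro x
  unfold NN Nop
  have h1 : 0 ≤ ∑ j, f (inc true (uu j) * x) := Finset.sum_nonneg fun _ _ => hf _
  have h2 : 0 ≤ ∑ j, f (inc false (vv j) * x) := Finset.sum_nonneg fun _ _ => hf _
  positivity

lemma NN_iter_nonneg (hα : 0 ≤ α) (hβ : 0 ≤ β) (n : ℕ) : ∀ {f : G6 → ℝ}, (∀ x, 0 ≤ f x) →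
    ∀ x, 0 ≤ (NN α β)^[n] f x := by
  induction n with
  | zero => intro f hf x; exact hf x
  | succ n ih =>
    intro f hf x
    rw [Function.iterate_succ_apply]
    exact ih (NN_nonneg hα hβ hf) x

lemma NN_le (hα : 0 ≤ α) (hβ : 0 ≤ β) (hab : α + β = 1) {f : G6 → ℝ} {C : ℝ}
    (hf : ∀ x, f x ≤ C) : ∀ x, NN α β f x ≤ C := by
  intro x
  unfold NN Nop
  have h1 : ∑ j, f (inc true (uu j) * x) ≤ 64 * C := by
    refine (Finset.sum_le_sum fun j _ => hf _).trans (le_of_eq ?_)
    simp only [Finset.sum_const, Finset.card_univ, Fintype.card_pi, Fintype.card_bool,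
      Finset.prod_const, Fintype.card_fin, nsmul_eq_mul]
    norm_num
  have h2 : ∑ j, f (inc false (vv j) * x) ≤ 2 * C := by
    refine (Finset.sum_le_sum fun j _ => hf _).trans (le_of_eq ?_)
    simp only [Finset.sum_const, Finset.card_univ, Fintype.card_bool, nsmul_eq_mul]
    norm_num
  calc α * (1 / 64) * ∑ j, f (inc true (uu j) * x) + β * (1 / 2) * ∑ j, f (inc false (vv j) * x)
      ≤ α * (1 / 64) * (64 * C) + β * (1 / 2) * (2 * C) := by gcongr
    _ = (α + β) * C := by ring
    _ = C := by rw [hab, one_mul]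

lemma NN_iter_le (hα : 0 ≤ α) (hβ : 0 ≤ β) (hab : α + β = 1) (n : ℕ) : ∀ {f : G6 → ℝ} {C : ℝ},
    (∀ x, f x ≤ C) → ∀ x, (NN α β)^[n] f x ≤ C := by
  induction n with
  | zero => intro f C hf x; exact hf x
  | succ n ih =>
    intro f C hf x
    rw [Function.iterate_succ_apply]
    exact ih (NN_le hα hβ hab hf) x

lemma gam_nonneg (hα : 0 ≤ α) (hβ : 0 ≤ β) (k : ℕ) : 0 ≤ gam α β k :=
  NN_iter_nonneg hα hβ k (fun x => by rw [dl_eq]; split_ifs <;> norm_num) 1

lemma gam_le_one (hα : 0 ≤ α) (hβ : 0 ≤ β) (hab : α + β = 1) (k : ℕ) : gam α β k ≤ 1 :=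
  NN_iter_le hα hβ hab k (fun x => by rw [dl_eq]; split_ifs <;> norm_num) 1

end

/-- the parity character -/
noncomputable def chi : G6 →* ℝ :=
  CoprodI.lift fun _ =>
    { toFun := fun x => (-1 : ℝ) ^ (x.toAdd 0)
      map_one' := by
        show (-1 : ℝ) ^ (0 : ℤ) = 1
        exact zpow_zero _
      map_mul' := by
        intro x y
        show (-1 : ℝ) ^ (x.toAdd 0 + y.toAdd 0) = _
        exact zpow_add₀ (by norm_num) _ _ }

lemma chi_inc (i : Bool) (x : M6) : chi (inc i x) = (-1 : ℝ) ^ (x.toAdd 0) := by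
  unfold chi
  rw [CoprodI.lift_of]
  rfl

lemma chi_uu (ε : Fin 6 → Bool) : chi (inc true (uu ε)) = -1 := by
  rw [chi_inc]
  show (-1 : ℝ) ^ (sg (ε 0)) = -1
  unfold sg
  split_ifs <;> norm_num

lemma chi_vv (e : Bool) : chi (inc false (vv e)) = -1 := by
  rw [chi_inc]
  show (-1 : ℝ) ^ ((Pi.single 0 (sg e) : Fin 6 → ℤ) 0) = -1
  rw [Pi.single_eq_same]
  unfold sg
  split_ifs <;> norm_num

lemma parity (α β : ℝ) (k : ℕ) : ∀ x, (NN α β)^[k] dl x = (-1) ^ k * chi x * (NN α β)^[k] dl x := by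
  induction k with
  | zero =>
    intro x
    rw [Function.iterate_zero, id, dl_eq]
    split_ifs with h
    · rw [h, map_one]; norm_num
    · simp
  | succ k ih =>
    intro x
    rw [Function.iterate_succ_apply']
    set f := (NN α β)^[k] dl with hf
    unfold NN Nop
    have h1 : ∀ ε, f (inc true (uu ε) * x) =
        ((-1) ^ (k + 1) * chi x) * f (inc true (uu ε) * x) := by
      intro ε
      have := ih (inc true (uu ε) * x)
      rw [map_mul, chi_uu] at this
      rw [pow_succ]
      linear_combination this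
    have h2 : ∀ e, f (inc false (vv e) * x) =
        ((-1) ^ (k + 1) * chi x) * f (inc false (vv e) * x) := by
      intro e
      have := ih (inc false (vv e) * x)
      rw [map_mul, chi_vv] at this
      rw [pow_succ]
      linear_combination this
    have h3 : ∑ ε, f (inc true (uu ε) * x) =
        ((-1) ^ (k + 1) * chi x) * ∑ ε, f (inc true (uu ε) * x) := by
      rw [Finset.mul_sum]
      exact Finset.sum_congr rfl fun ε _ => h1 ε
    have h4 : ∑ e, f (inc false (vv e) * x) =
        ((-1) ^ (k + 1) * chi x) * ∑ e, f (inc false (vv e) * x) := by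
      rw [Finset.mul_sum]
      exact Finset.sum_congr rfl fun e _ => h2 e
    linear_combination α * (1 / 64) * h3 + β * (1 / 2) * h4

lemma gam_odd (α β : ℝ) (n : ℕ) : gam α β (2 * n + 1) = 0 := by
  have h := parity α β (2 * n + 1) 1
  have e : (-1 : ℝ) ^ (2 * n + 1) = -1 := by rw [pow_succ, pow_mul]; norm_num
  rw [map_one, e] at h
  unfold gam
  linarith

end Pool.Agent.W2helper27.RP
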