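import Mathlib

set_option autoImplicit false

/-!
The series with coefficients the sixth powers of the return probabilities of the simple walk.
-/

namespace Pool.Agent.W2helper27.RP

/-- return probabilities of the simple walk on the integers -/
noncomputable def bb (n : ℕ) : ℝ := (n.centralBinom : ℝ) / 4 ^ n

lemma bb_nonneg (n : ℕ) : 0 ≤ bb n := by unfold bb; positivity

lemma bb_succ (n : ℕ) : bb (n + 1) = bb n * ((2 * n + 1) / (2 * n + 2)) := by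
  unfold bb
  have h := Nat.succ_mul_centralBinom_succ n
  have h' : ((n : ℝ) + 1) * ((n + 1).centralBinom : ℝ) = 2 * (2 * n + 1) * (n.centralBinom : ℝ) := by
    exact_mod_cast h
  have h1 : ((n : ℝ) + 1) ≠ 0 := by positivity
  have h2 : ((n + 1).centralBinom : ℝ) = 2 * (2 * n + 1) * (n.centralBinom : ℝ) / (n + 1) := by
    field_simp
    linarith
  rw [h2, pow_succ]
  field_simp
  ring

lemma bb_up : ∀ n : ℕ, bb n ^ 2 ≤ 1 / (2 * n + 1) := by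
  intro n
  induction n with
  | zero => unfold bb; simp
  | succ n ih =>
    rw [bb_succ, mul_pow]
    have h1 : bb n ^ 2 * ((2 * n + 1) / (2 * n + 2)) ^ 2 ≤
        1 / (2 * n + 1) * (((2 * n + 1) / (2 * n + 2)) ^ 2 : ℝ) :=
      mul_le_mul_of_nonneg_right ih (by positivity)
    refine h1.trans ?_
    push_cast
    rw [div_pow, div_mul_div_comm, div_le_div_iff₀ (by positivity) (by positivity)]
    have hn : (0 : ℝ) ≤ n := Nat.cast_nonneg n
    nlinarith [hn, mul_nonneg hn hn]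

lemma bb_low : ∀ n : ℕ, 1 ≤ n → 1 / (4 * (n : ℝ)) ≤ bb n ^ 2 := by
  intro n hn
  induction n, hn using Nat.le_induction with
  | base =>
    unfold bb
    norm_num [Nat.centralBinom]
  | succ n hn ih =>
    rw [bb_succ, mul_pow]
    have hn' : (1 : ℝ) ≤ n := by exact_mod_cast hn
    have h1 : 1 / (4 * (n : ℝ)) * (((2 * n + 1) / (2 * n + 2)) ^ 2 : ℝ) ≤
        bb n ^ 2 * ((2 * n + 1) / (2 * n + 2)) ^ 2 :=
      mul_le_mul_of_nonneg_right ih (by positivity)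
    refine le_trans ?_ h1
    push_cast
    rw [div_pow, div_mul_div_comm, div_le_div_iff₀ (by positivity) (by positivity)]
    nlinarith [hn', mul_nonneg (by linarith : (0 : ℝ) ≤ n) (by linarith : (0 : ℝ) ≤ n)]

/-- the coefficients -/
noncomputable def cc (n : ℕ) : ℝ := bb n ^ 6

lemma cc_nonneg (n : ℕ) : 0 ≤ cc n := by unfold cc; have := bb_nonneg n; positivity

lemma cc_zero : cc 0 = 1 := by unfold cc bb; simp

lemma cc_up (n : ℕ) : cc n ≤ 1 / (2 * n + 1) ^ 3 := by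
  have h := pow_le_pow_left₀ (by positivity) (bb_up n) 3
  rw [← pow_mul, div_pow, one_pow] at h
  exact h

lemma cc_low (n : ℕ) (hn : 1 ≤ n) : 1 / (64 * (n : ℝ) ^ 3) ≤ cc n := by
  have h := pow_le_pow_left₀ (by positivity) (bb_low n hn) 3
  rw [← pow_mul, div_pow, one_pow, mul_pow] at h
  norm_num at h
  unfold cc
  rw [one_div, mul_inv]
  linarith

/-- telescoping bound -/
lemma tele_hasSum : HasSum (fun n : ℕ => 1 / (4 * ((n : ℝ) + 1) * (n + 2))) (1 / 4) := by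
  rw [hasSum_iff_tendsto_nat_of_nonneg (fun n => by positivity)]
  have h : ∀ n : ℕ, ∑ i ∈ Finset.range n, 1 / (4 * ((i : ℝ) + 1) * (i + 2)) =
      1 / 4 - 1 / 4 * (1 / ((n : ℝ) + 1)) := by
    intro n
    induction n with
    | zero => simp
    | succ n ih =>
      rw [Finset.sum_range_succ, ih]
      push_cast
      field_simp
      ring
  simp only [h]
  have := tendsto_one_div_add_atTop_nhds_zero_nat (𝕜 := ℝ)
  have h2 := (this.const_mul (1 / 4)).const_sub (1 / 4)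
  simpa using h2

lemma dterm_le (n : ℕ) : 2 * ((n + 1 : ℕ) : ℝ) * cc (n + 1) ≤ 1 / (4 * ((n : ℝ) + 1) * (n + 2)) := by
  have h := cc_up (n + 1)
  have h1 : 2 * ((n + 1 : ℕ) : ℝ) * cc (n + 1) ≤ 2 * ((n + 1 : ℕ) : ℝ) * (1 / (2 * ((n + 1 : ℕ) : ℝ) + 1) ^ 3) :=
    mul_le_mul_of_nonneg_left h (by positivity)
  refine h1.trans ?_
  push_cast
  rw [mul_one_div, div_le_div_iff₀ (by positivity) (by positivity)]
  have hn : (0 : ℝ) ≤ n := Nat.cast_nonneg n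
  nlinarith [hn, mul_nonneg hn hn, mul_nonneg (mul_nonneg hn hn) hn]

lemma dsum : Summable fun n : ℕ => 2 * (n : ℝ) * cc n := by
  rw [← summable_nat_add_iff 1]
  refine Summable.of_nonneg_of_le (fun n => ?_) dterm_le tele_hasSum.summable
  have := cc_nonneg (n + 1)
  positivity

/-- the derivative at one -/
noncomputable def dg : ℝ := ∑' n : ℕ, 2 * (n : ℝ) * cc n

lemma dg_eq : dg = ∑' n : ℕ, 2 * ((n + 1 : ℕ) : ℝ) * cc (n + 1) := by
  unfold dg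
  rw [dsum.tsum_eq_zero_add]
  simp

lemma dg_le : dg ≤ 1 / 4 := by
  rw [dg_eq, ← tele_hasSum.tsum_eq]
  exact Summable.tsum_le_tsum dterm_le ((summable_nat_add_iff 1).2 dsum) tele_hasSum.summable

lemma dg_ge : 1 / 32 ≤ dg := by
  have h := dsum.le_tsum 1 (fun n _ => by have := cc_nonneg n; positivity)
  have h1 := cc_low 1 le_rfl
  norm_num at h1 h
  unfold dg
  linarith

lemma csum : Summable cc := by
  rw [← summable_nat_add_iff 1]
  refine Summable.of_nonneg_of_le (fun n => cc_nonneg _) (fun n => ?_)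
    ((summable_nat_add_iff 1).2 dsum)
  have h := cc_nonneg (n + 1)
  have h2 : (1 : ℝ) ≤ 2 * ((n + 1 : ℕ) : ℝ) := by push_cast; linarith [(Nat.cast_nonneg n : (0 : ℝ) ≤ n)]
  nlinarith

/-- the series -/
noncomputable def gg (ζ : ℝ) : ℝ := ∑' n : ℕ, cc n * ζ ^ (2 * n)

lemma gsum {ζ : ℝ} (h0 : 0 ≤ ζ) (h1 : ζ ≤ 1) : Summable fun n : ℕ => cc n * ζ ^ (2 * n) := by
  refine Summable.of_nonneg_of_le (fun n => mul_nonneg (cc_nonneg n) (pow_nonneg h0 _))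
    (fun n => ?_) csum
  exact mul_le_of_le_one_right (cc_nonneg n) (pow_le_one₀ h0 h1)

lemma gg_ge_one {ζ : ℝ} (h0 : 0 ≤ ζ) (h1 : ζ ≤ 1) : 1 ≤ gg ζ := by
  have h := (gsum h0 h1).le_tsum 0 (fun n _ => mul_nonneg (cc_nonneg n) (pow_nonneg h0 _))
  rw [cc_zero] at h
  simpa [gg] using h

lemma gg_one : gg 1 = ∑' n, cc n := by
  unfold gg
  simp

lemma gg_one_sub : 2 * (gg 1 - 1) ≤ dg := by
  rw [gg_one, csum.tsum_eq_zero_add, cc_zero, dg_eq]
  have : 2 * (1 + ∑' n, cc (n + 1) - 1) = ∑' n, 2 * cc (n + 1) := by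
    rw [tsum_mul_left]; ring
  rw [this]
  refine Summable.tsum_le_tsum (fun n => ?_) (((summable_nat_add_iff 1).2 csum).mul_left 2)
    ((summable_nat_add_iff 1).2 dsum)
  have h := cc_nonneg (n + 1)
  have h2 : (0 : ℝ) ≤ n := Nat.cast_nonneg n
  push_cast
  nlinarith [mul_nonneg h h2]

lemma gg_one_le : gg 1 ≤ 9 / 8 := by
  have := gg_one_sub
  have := dg_le
  linarith

/-- the defect -/
noncomputable def RR (ζ : ℝ) : ℝ := dg * (1 - ζ) - (gg 1 - gg ζ)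

/-- terms of the defect -/
noncomputable def rt (ζ : ℝ) (n : ℕ) : ℝ := cc n * (2 * n * (1 - ζ) - (1 - ζ ^ (2 * n)))

lemma RR_hasSum {ζ : ℝ} (h0 : 0 ≤ ζ) (h1 : ζ ≤ 1) : HasSum (rt ζ) (RR ζ) := by
  have h2 := dsum.hasSum.mul_right (1 - ζ)
  have h3 := csum.hasSum.sub (gsum h0 h1).hasSum
  rw [← gg_one] at h3
  have h4 := h2.sub h3
  have e : rt ζ = fun n : ℕ => 2 * (n : ℝ) * cc n * (1 - ζ) - (cc n - cc n * ζ ^ (2 * n)) := by
    funext n; unfold rt; ring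
  rw [e]
  exact h4

lemma pw_low {ζ : ℝ} (h0 : 0 ≤ ζ) (h1 : ζ ≤ 1) (m : ℕ) (hm : 1 ≤ m) :
    ((m : ℝ) - 1) * (1 - ζ) ^ 2 ≤ m * (1 - ζ) - (1 - ζ ^ m) := by
  induction m, hm using Nat.le_induction with
  | base => simp
  | succ m hm ih =>
    have h2 : ζ ^ m ≤ ζ := by
      calc ζ ^ m ≤ ζ ^ 1 := pow_le_pow_of_le_one h0 h1 hm
        _ = ζ := pow_one _
    rw [pow_succ ζ m]
    push_cast
    nlinarith [mul_nonneg (sub_nonneg.2 h1) (sub_nonneg.2 h2)]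

lemma pw_bern {ζ : ℝ} (h0 : 0 ≤ ζ) (m : ℕ) : 1 - ζ ^ m ≤ m * (1 - ζ) := by
  have := one_add_mul_le_pow (a := ζ - 1) (by linarith) m
  rw [show 1 + (ζ - 1) = ζ by ring] at this
  nlinarith

lemma pw_half {ζ : ℝ} (h0 : 0 ≤ ζ) (h1 : ζ ≤ 1) (m : ℕ) (hm : m * (1 - ζ) ≤ 1) :
    m * (1 - ζ) / 2 ≤ 1 - ζ ^ m := by
  have h2 := one_add_mul_le_pow (a := 1 - ζ) (by linarith) m
  have h3 : (1 + (1 - ζ)) ^ m * ζ ^ m ≤ 1 := by
    rw [← mul_pow]
    refine pow_le_one₀ (by nlinarith) ?_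
    nlinarith [sq_nonneg (1 - ζ)]
  have h4 : 0 ≤ ζ ^ m := pow_nonneg h0 m
  have h5 : 0 ≤ (m : ℝ) * (1 - ζ) := mul_nonneg (Nat.cast_nonneg m) (by linarith)
  set t := (m : ℝ) * (1 - ζ) with ht
  set a := ζ ^ m with ha
  have h6 : (1 + t) * a ≤ 1 := (mul_le_mul_of_nonneg_right h2 h4).trans h3
  nlinarith

lemma pw_low2 {ζ : ℝ} (h0 : 0 ≤ ζ) (h1 : ζ ≤ 1) (m : ℕ) (hm : m * (1 - ζ) ≤ 1) :
    (m : ℝ) * (m - 1) / 4 * (1 - ζ) ^ 2 ≤ m * (1 - ζ) - (1 - ζ ^ m) := by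
  induction m with
  | zero => simp
  | succ m ih =>
    have hm' : (m : ℝ) * (1 - ζ) ≤ 1 := by
      push_cast at hm
      linarith
    have h2 := ih hm'
    have h3 := pw_half h0 h1 m hm'
    rw [pow_succ ζ m]
    push_cast
    nlinarith [mul_le_mul_of_nonneg_left h3 (sub_nonneg.2 h1)]

lemma pw_up {ζ : ℝ} (h0 : 0 ≤ ζ) (h1 : ζ ≤ 1) (m : ℕ) :
    m * (1 - ζ) - (1 - ζ ^ m) ≤ (m * (1 - ζ)) ^ 2 := by
  induction m with
  | zero => simp
  | succ m ih =>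
    have h3 := pw_bern h0 m
    rw [pow_succ ζ m]
    push_cast
    have h4 : (0 : ℝ) ≤ m := Nat.cast_nonneg m
    nlinarith [mul_le_mul_of_nonneg_left h3 (sub_nonneg.2 h1), mul_nonneg h4 (sq_nonneg (1 - ζ)),
      sq_nonneg (1 - ζ)]

lemma pw_nonneg {ζ : ℝ} (h0 : 0 ≤ ζ) (m : ℕ) : 0 ≤ m * (1 - ζ) - (1 - ζ ^ m) := by
  have := pw_bern h0 m
  linarith

lemma rt_nonneg {ζ : ℝ} (h0 : 0 ≤ ζ) (n : ℕ) : 0 ≤ rt ζ n := by
  unfold rt
  have := pw_nonneg h0 (2 * n)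
  push_cast at this
  exact mul_nonneg (cc_nonneg n) this

lemma RR_nonneg {ζ : ℝ} (h0 : 0 ≤ ζ) (h1 : ζ ≤ 1) : 0 ≤ RR ζ :=
  (RR_hasSum h0 h1).nonneg (rt_nonneg h0)

lemma RR_ge {ζ : ℝ} (h0 : 0 ≤ ζ) (h1 : ζ ≤ 1) : dg / 2 * (1 - ζ) ^ 2 ≤ RR ζ := by
  have h2 : HasSum (fun n : ℕ => 2 * (n : ℝ) * cc n * ((1 - ζ) ^ 2 / 2)) (dg * ((1 - ζ) ^ 2 / 2)) :=
    dsum.hasSum.mul_right _
  have h3 := hasSum_le (fun n => ?_) h2 (RR_hasSum h0 h1)
  · linarith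
  · unfold rt
    rcases Nat.eq_zero_or_pos n with rfl | hn
    · simp
    · have h4 := pw_low h0 h1 (2 * n) (by omega)
      push_cast at h4
      have h5 : (1 : ℝ) ≤ n := by exact_mod_cast hn
      have h6 : (n : ℝ) * (1 - ζ) ^ 2 ≤ (2 * n - 1) * (1 - ζ) ^ 2 :=
        mul_le_mul_of_nonneg_right (by linarith) (sq_nonneg _)
      have h7 := mul_le_mul_of_nonneg_left (h6.trans h4) (cc_nonneg n)
      calc _ = cc n * (n * (1 - ζ) ^ 2) := by ring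
        _ ≤ _ := h7

lemma RR_large (K : ℝ) : ∃ δ0 : ℝ, 0 < δ0 ∧ ∀ ζ : ℝ, 0 ≤ ζ → ζ ≤ 1 → 1 - ζ ≤ δ0 →
    K * (1 - ζ) ^ 2 ≤ RR ζ := by
  obtain ⟨M, hM⟩ := ((Real.tendsto_sum_range_one_div_nat_succ_atTop).eventually
    (Filter.eventually_ge_atTop (128 * K))).exists
  refine ⟨1 / (2 * (M + 1)), by positivity, fun ζ h0 h1 hζ => ?_⟩
  have h2 : ∑ n ∈ Finset.range (M + 1), rt ζ n ≤ RR ζ :=
    sum_le_hasSum _ (fun n _ => rt_nonneg h0 n) (RR_hasSum h0 h1)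
  have h3 : ∀ n ∈ Finset.range M, 1 / 128 * (1 / ((n : ℝ) + 1)) * (1 - ζ) ^ 2 ≤ rt ζ (n + 1) := by
    intro n hn
    have hn' : (n : ℝ) + 1 ≤ M := by exact_mod_cast Finset.mem_range.1 hn
    have h4 : ((2 * (n + 1) : ℕ) : ℝ) * (1 - ζ) ≤ 1 := by
      push_cast
      calc 2 * ((n : ℝ) + 1) * (1 - ζ) ≤ 2 * (M + 1) * (1 / (2 * (M + 1))) := by
            refine mul_le_mul ?_ hζ (by linarith) (by positivity)
            linarith
        _ = 1 := by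
            have : (M : ℝ) + 1 ≠ 0 := by positivity
            field_simp
    have h5 := pw_low2 h0 h1 _ h4
    push_cast at h5
    have h6 := cc_low (n + 1) (by omega)
    push_cast at h6
    unfold rt
    push_cast
    have hx : (1 : ℝ) ≤ (n : ℝ) + 1 := by linarith [(Nat.cast_nonneg n : (0 : ℝ) ≤ n)]
    set x := (n : ℝ) + 1 with hxd
    have h7 : x ^ 2 / 2 * (1 - ζ) ^ 2 ≤ 2 * x * (2 * x - 1) / 4 * (1 - ζ) ^ 2 := by
      refine mul_le_mul_of_nonneg_right ?_ (sq_nonneg _)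
      nlinarith
    calc 1 / 128 * (1 / x) * (1 - ζ) ^ 2 = 1 / (64 * x ^ 3) * (x ^ 2 / 2 * (1 - ζ) ^ 2) := by
          field_simp
          ring
      _ ≤ cc (n + 1) * (2 * x * (1 - ζ) - (1 - ζ ^ (2 * (n + 1)))) := by
          refine mul_le_mul h6 (h7.trans h5) (by positivity) (cc_nonneg _)
  have h4 : ∑ n ∈ Finset.range M, 1 / 128 * (1 / ((n : ℝ) + 1)) * (1 - ζ) ^ 2 ≤
      ∑ n ∈ Finset.range M, rt ζ (n + 1) := Finset.sum_le_sum h3
  rw [← Finset.sum_mul, ← Finset.mul_sum] at h4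
  have h5 : ∑ n ∈ Finset.range M, rt ζ (n + 1) ≤ ∑ n ∈ Finset.range (M + 1), rt ζ n := by
    rw [Finset.sum_range_succ']
    linarith [rt_nonneg h0 0]
  have h6 : K * (1 - ζ) ^ 2 ≤
      1 / 128 * (∑ n ∈ Finset.range M, 1 / ((n : ℝ) + 1)) * (1 - ζ) ^ 2 := by
    refine mul_le_mul_of_nonneg_right ?_ (sq_nonneg _)
    linarith
  linarith

lemma RR_small (e : ℝ) (he1 : 1 ≤ e) (he2 : e < 2) : ∃ C : ℝ, 0 ≤ C ∧
    ∀ ζ : ℝ, 0 ≤ ζ → ζ ≤ 1 → RR ζ ≤ C * (1 - ζ) ^ e := by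
  have hs : Summable fun n : ℕ => cc n * (2 * (n : ℝ)) ^ e := by
    have hs2 : Summable fun n : ℕ => (2 : ℝ) ^ (e - 3) * (n : ℝ) ^ (e - 3) :=
      (Real.summable_nat_rpow.2 (by linarith)).mul_left _
    refine Summable.of_nonneg_of_le (fun n => mul_nonneg (cc_nonneg n) (by positivity))
      (fun n => ?_) hs2
    rcases Nat.eq_zero_or_pos n with rfl | hn
    · simp only [Nat.cast_zero, mul_zero]
      rw [Real.zero_rpow (by linarith), mul_zero]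
      positivity
    · have hn' : (0 : ℝ) < n := by exact_mod_cast hn
      rw [← Real.mul_rpow (by norm_num) hn'.le, Real.rpow_sub (by positivity)]
      rw [div_eq_inv_mul]
      refine mul_le_mul_of_nonneg_right ?_ (by positivity)
      refine (cc_up n).trans ?_
      rw [← one_div, show (3 : ℝ) = ((3 : ℕ) : ℝ) by norm_num, Real.rpow_natCast]
      refine one_div_le_one_div_of_le (by positivity) ?_
      exact pow_le_pow_left₀ (by positivity) (by linarith) 3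
  refine ⟨∑' n : ℕ, cc n * (2 * (n : ℝ)) ^ e, tsum_nonneg fun n =>
    mul_nonneg (cc_nonneg n) (by positivity), fun ζ h0 h1 => ?_⟩
  refine hasSum_le (fun n => ?_) (RR_hasSum h0 h1) (hs.hasSum.mul_right _)
  have hδ : 0 ≤ 1 - ζ := by linarith
  rw [mul_assoc, ← Real.mul_rpow (by positivity) hδ]
  unfold rt
  refine mul_le_mul_of_nonneg_left ?_ (cc_nonneg n)
  have h3 := pw_up h0 h1 (2 * n)
  push_cast at h3
  have h4 : 2 * (n : ℝ) * (1 - ζ) - (1 - ζ ^ (2 * n)) ≤ 2 * (n : ℝ) * (1 - ζ) := by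
    have : ζ ^ (2 * n) ≤ 1 := pow_le_one₀ h0 h1
    linarith
  have h5 : 0 ≤ 2 * (n : ℝ) * (1 - ζ) := by positivity
  set t := 2 * (n : ℝ) * (1 - ζ) with ht
  rcases h5.eq_or_lt with h6 | h6
  · rw [← h6, Real.zero_rpow (by linarith)]
    rw [← h6] at h4
    exact h4
  · rcases le_total t 1 with h7 | h7
    · refine h3.trans ?_
      rw [← Real.rpow_natCast]
      exact Real.rpow_le_rpow_of_exponent_ge h6 h7 (by push_cast; linarith)
    · refine h4.trans ?_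
      calc t = t ^ (1 : ℝ) := (Real.rpow_one t).symm
        _ ≤ t ^ e := Real.rpow_le_rpow_of_exponent_le h7 he1

lemma gg_sub_le {ζ : ℝ} (h0 : 0 ≤ ζ) (h1 : ζ ≤ 1) : gg 1 - gg ζ ≤ dg * (1 - ζ) := by
  have := RR_nonneg h0 h1
  unfold RR at this
  linarith

lemma gg_sub_ge {ζ : ℝ} (h0 : 0 ≤ ζ) (h1 : ζ ≤ 1) : (1 - ζ) / 64 ≤ gg 1 - gg ζ := by
  have h3 := csum.hasSum.sub (gsum h0 h1).hasSum
  rw [← gg_one] at h3
  have h4 := le_hasSum h3 1 (fun n _ => by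
    have : ζ ^ (2 * n) ≤ 1 := pow_le_one₀ h0 h1
    have := cc_nonneg n
    nlinarith)
  have h5 := cc_low 1 le_rfl
  norm_num at h5
  have h6 : 1 - ζ ≤ 1 - ζ ^ (2 * 1) := by
    rw [mul_one]
    nlinarith
  have h7 : cc 1 * (1 - ζ) ≤ cc 1 * (1 - ζ ^ (2 * 1)) := mul_le_mul_of_nonneg_left h6 (cc_nonneg 1)
  have h8 : 1 / 64 * (1 - ζ) ≤ cc 1 * (1 - ζ) := mul_le_mul_of_nonneg_right h5 (by linarith)
  unfold gg at *
  linarith

end Pool.Agent.W2helper27.RP
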