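import Mathlib
import Pool.Agent.W2helper27.RP.Ser

set_option autoImplicit false

/-!
The critical choice of the parameter and the behaviour of the singularity.
-/

namespace Pool.Agent.W2helper27.RP

lemma g1_ge : 1 ≤ gg 1 := gg_ge_one zero_le_one le_rfl

lemma den_pos : 0 < gg 1 + dg - gg 1 ^ 2 := by
  have h1 := g1_ge
  have h2 := gg_one_le
  have h3 := gg_one_sub
  have h4 := dg_ge
  nlinarith

/-- the critical value of the second Green function -/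
noncomputable def s1 : ℝ := (gg 1 + dg) / (gg 1 + dg - gg 1 ^ 2)

lemma s1_eq : s1 * (gg 1 + dg - gg 1 ^ 2) = gg 1 + dg := by
  unfold s1
  rw [div_mul_cancel₀ _ den_pos.ne']

lemma s1_gt : 1 < s1 := by
  unfold s1
  rw [lt_div_iff₀ den_pos]
  have h1 := g1_ge
  nlinarith

/-- the critical parameter -/
noncomputable def kap : ℝ := Real.sqrt (s1 ^ 2 - 1) / gg 1

lemma kap_pos : 0 < kap := by
  unfold kap
  have h1 := g1_ge
  have h2 := s1_gt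
  have h3 : 0 < s1 ^ 2 - 1 := by nlinarith
  have h4 := Real.sqrt_pos.2 h3
  positivity

lemma kap_sq : kap ^ 2 * gg 1 ^ 2 = s1 ^ 2 - 1 := by
  unfold kap
  have h1 := g1_ge
  have h2 := s1_gt
  have h3 : 0 ≤ s1 ^ 2 - 1 := by nlinarith
  rw [div_pow, Real.sq_sqrt h3]
  field_simp

/-- the common argument -/
noncomputable def yy (ζ : ℝ) : ℝ := ζ * gg ζ

/-- the second Green function -/
noncomputable def ss (ζ : ℝ) : ℝ := Real.sqrt (1 + (kap * yy ζ) ^ 2)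

/-- the Green function at the identity -/
noncomputable def Gf (ζ : ℝ) : ℝ := gg ζ + ss ζ - 1

/-- the normalised argument -/
noncomputable def Zf (ζ : ℝ) : ℝ := yy ζ / Gf ζ

lemma yy_one : yy 1 = gg 1 := by unfold yy; ring

lemma ss_sq (ζ : ℝ) : ss ζ ^ 2 = 1 + (kap * yy ζ) ^ 2 := by
  unfold ss
  exact Real.sq_sqrt (by positivity)

lemma ss_one : ss 1 = s1 := by
  unfold ss
  rw [yy_one, mul_pow, kap_sq]
  rw [show 1 + (s1 ^ 2 - 1) = s1 ^ 2 by ring]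
  exact Real.sqrt_sq (by linarith [s1_gt])

lemma ss_ge (ζ : ℝ) : 1 ≤ ss ζ := by
  unfold ss
  rw [Real.le_sqrt' (by norm_num)]
  nlinarith [sq_nonneg (kap * yy ζ)]

lemma Gf_one : Gf 1 = gg 1 + s1 - 1 := by unfold Gf; rw [ss_one]

/-- the critical value -/
noncomputable def Z1 : ℝ := gg 1 / (gg 1 + s1 - 1)

lemma Zf_one : Zf 1 = Z1 := by unfold Zf Z1; rw [yy_one, Gf_one]

lemma Z1_pos : 0 < Z1 := by
  unfold Z1
  have h1 := g1_ge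
  have h2 := s1_gt
  have : 0 < gg 1 + s1 - 1 := by linarith
  positivity

lemma Z1_eq : Z1 * (gg 1 + s1 - 1) = gg 1 := by
  unfold Z1
  have h1 := g1_ge
  have h2 := s1_gt
  have : gg 1 + s1 - 1 ≠ 0 := by linarith
  rw [div_mul_cancel₀ _ this]

/-- an auxiliary constant -/
noncomputable def lam : ℝ := 1 - Z1 * kap ^ 2 * gg 1 / s1

lemma lam_eq : lam * (gg 1 + dg) = Z1 * dg := by
  have h1 := g1_ge
  have h2 := s1_gt
  have h3 := s1_eq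
  have h4 := Z1_eq
  have h5 := kap_sq
  have hs : s1 ≠ 0 := by linarith
  have hg : gg 1 ≠ 0 := by linarith
  have hD : gg 1 + s1 - 1 ≠ 0 := by linarith
  have hk : kap ^ 2 = (s1 ^ 2 - 1) / gg 1 ^ 2 := by
    field_simp
    linarith
  unfold lam
  rw [hk]
  have hz : Z1 = gg 1 / (gg 1 + s1 - 1) := rfl
  rw [hz]
  field_simp
  linear_combination (-1) * h3

lemma lam_pos : 0 < lam := by
  have h1 := g1_ge
  have h2 := dg_ge
  have h3 := Z1_pos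
  have h4 := lam_eq
  have h5 : 0 < lam * (gg 1 + dg) := by
    rw [h4]; positivity
  exact pos_of_mul_pos_left h5 (by linarith)

lemma lam_lt : lam < Z1 := by
  have h1 := g1_ge
  have h2 := dg_ge
  have h3 := Z1_pos
  have h4 := lam_eq
  have h5 : lam * (gg 1 + dg) < Z1 * (gg 1 + dg) := by
    rw [h4]; nlinarith
  exact lt_of_mul_lt_mul_right h5 (by linarith)

lemma lam_eq2 : lam * gg 1 = (Z1 - lam) * dg := by
  have h4 := lam_eq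
  linarith

section

variable {ζ : ℝ}

lemma gg_nonneg' (h0 : 0 ≤ ζ) (h1 : ζ ≤ 1) : 0 ≤ yy ζ := by
  unfold yy
  have := gg_ge_one h0 h1
  positivity

lemma yy_le (h0 : 0 ≤ ζ) (h1 : ζ ≤ 1) : yy ζ ≤ gg 1 := by
  have h2 := gg_ge_one h0 h1
  have h3 := gg_sub_ge h0 h1
  unfold yy
  nlinarith

lemma yy_ge (h0 : 0 ≤ ζ) (h1 : ζ ≤ 1) : gg 1 - yy ζ ≤ (gg 1 + dg) * (1 - ζ) := by
  have h3 := gg_sub_le h0 h1
  have h4 : gg ζ ≤ gg 1 := by have := gg_sub_ge h0 h1; linarith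
  unfold yy
  nlinarith

/-- the second order term -/
noncomputable def EE (ζ : ℝ) : ℝ := ss ζ - s1 - kap ^ 2 * gg 1 / s1 * (yy ζ - gg 1)

lemma EE_nonneg (h0 : 0 ≤ ζ) (h1 : ζ ≤ 1) : 0 ≤ EE ζ := by
  have h2 := s1_gt
  have h3 := ss_sq ζ
  have h4 := kap_sq
  have h5 := ss_ge ζ
  have h6 := g1_ge
  have h7 := gg_nonneg' h0 h1
  -- `s1 * ss ≥ 1 + kap^2 * y * g1`
  have h8 : 1 + kap ^ 2 * (yy ζ * gg 1) ≤ s1 * ss ζ := by
    refine le_of_sq_le_sq ?_ (by positivity)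
    rw [mul_pow, h3, show s1 ^ 2 = 1 + kap ^ 2 * gg 1 ^ 2 by linarith]
    nlinarith [sq_nonneg (kap * (yy ζ - gg 1))]
  have h9 : EE ζ * s1 = s1 * ss ζ - (1 + kap ^ 2 * (yy ζ * gg 1)) := by
    unfold EE
    have : s1 ≠ 0 := by linarith
    field_simp
    linear_combination h4
  have h10 : 0 ≤ EE ζ * s1 := by rw [h9]; linarith
  exact nonneg_of_mul_nonneg_left h10 (by linarith)

lemma EE_le (h0 : 0 ≤ ζ) (h1 : ζ ≤ 1) : EE ζ ≤ kap ^ 2 * (yy ζ - gg 1) ^ 2 := by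
  have h2 := s1_gt
  have h3 := ss_sq ζ
  have h4 := kap_sq
  have h5 := ss_ge ζ
  have h6 := g1_ge
  have h7 := gg_nonneg' h0 h1
  have hy := yy_le h0 h1
  have hk := kap_pos
  -- exact formula
  have hs : s1 ≠ 0 := by linarith
  have h8 : EE ζ * (s1 * (ss ζ + s1)) =
      kap ^ 2 * (yy ζ - gg 1) ^ 2 * s1 - kap ^ 2 * gg 1 * (ss ζ - s1) * (yy ζ - gg 1) := by
    unfold EE
    field_simp
    linear_combination s1 * h3 + s1 * h4
  have h9 : ss ζ ≤ s1 := by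
    rw [← ss_one]
    unfold ss
    refine Real.sqrt_le_sqrt ?_
    have : (kap * yy ζ) ^ 2 ≤ (kap * yy 1) ^ 2 := by
      refine pow_le_pow_left₀ (by positivity) ?_ 2
      rw [yy_one]
      exact mul_le_mul_of_nonneg_left hy hk.le
    linarith
  have h10 : 0 ≤ kap ^ 2 * gg 1 * (ss ζ - s1) * (yy ζ - gg 1) := by
    have : 0 ≤ (s1 - ss ζ) * (gg 1 - yy ζ) := mul_nonneg (by linarith) (by linarith)
    have h11 : 0 ≤ kap ^ 2 * gg 1 := by positivity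
    have h12 := mul_nonneg h11 this
    linarith
  have h11 : EE ζ * (s1 * (ss ζ + s1)) ≤ kap ^ 2 * (yy ζ - gg 1) ^ 2 * (s1 * (ss ζ + s1)) := by
    rw [h8]
    have h12 : 0 ≤ kap ^ 2 * (yy ζ - gg 1) ^ 2 := by positivity
    have h13 : s1 ≤ s1 * (ss ζ + s1) := by nlinarith
    have h14 := mul_le_mul_of_nonneg_left h13 h12
    linarith
  exact le_of_mul_le_mul_right h11 (by nlinarith)

lemma ss_le (h0 : 0 ≤ ζ) (h1 : ζ ≤ 1) : ss ζ ≤ s1 := by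
  have hy := yy_le h0 h1
  have hk := kap_pos
  have h7 := gg_nonneg' h0 h1
  rw [← ss_one]
  unfold ss
  refine Real.sqrt_le_sqrt ?_
  have : (kap * yy ζ) ^ 2 ≤ (kap * yy 1) ^ 2 := by
    refine pow_le_pow_left₀ (by positivity) ?_ 2
    rw [yy_one]
    exact mul_le_mul_of_nonneg_left hy hk.le
  linarith

lemma Gf_ge (h0 : 0 ≤ ζ) (h1 : ζ ≤ 1) : 1 ≤ Gf ζ := by
  unfold Gf
  have := ss_ge ζ
  have := gg_ge_one h0 h1
  linarith

lemma Gf_le (h0 : 0 ≤ ζ) (h1 : ζ ≤ 1) : Gf ζ ≤ Gf 1 := by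
  rw [Gf_one]
  unfold Gf
  have := ss_le h0 h1
  have := gg_sub_ge h0 h1
  linarith

/-- the numerator -/
noncomputable def Nf (ζ : ℝ) : ℝ := Z1 * Gf ζ - yy ζ

lemma Nf_eq (ζ : ℝ) : Nf ζ = (Z1 - lam) * RR ζ - lam * (1 - ζ) * (gg 1 - gg ζ) + Z1 * EE ζ := by
  have h1 : Z1 * (gg 1 + s1 - 1) = gg 1 := Z1_eq
  have h2 := lam_eq
  have h3 : lam = 1 - Z1 * (kap ^ 2 * gg 1 / s1) := by unfold lam; ring
  set q := kap ^ 2 * gg 1 / s1 with hq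
  have h4 : EE ζ = ss ζ - s1 - q * (yy ζ - gg 1) := rfl
  rw [h4]
  unfold Nf RR Gf
  have h5 : yy ζ = ζ * gg ζ := rfl
  linear_combination h1 + (1 - ζ) * h2 + (yy ζ - gg 1) * h3 - lam * h5

lemma Nf_pos (h0 : 0 ≤ ζ) (h1 : ζ < 1) : 0 < Nf ζ := by
  have h2 := Nf_eq ζ
  have h3 := EE_nonneg h0 h1.le
  have h4 := RR_ge h0 h1.le
  have h5 := gg_sub_le h0 h1.le
  have h6 := lam_pos
  have h7 := lam_lt
  have h8 := lam_eq2
  have h9 := Z1_pos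
  have h10 := dg_ge
  have h11 := dg_le
  have h12 := g1_ge
  have hδ : 0 < 1 - ζ := by linarith
  -- `(Z1 - lam) R ≥ (Z1 - lam) dg / 2 δ^2 = lam g1 / 2 δ^2`
  have e1 : lam * gg 1 / 2 * (1 - ζ) ^ 2 ≤ (Z1 - lam) * RR ζ := by
    calc lam * gg 1 / 2 * (1 - ζ) ^ 2 = (Z1 - lam) * (dg / 2 * (1 - ζ) ^ 2) := by rw [h8]; ring
      _ ≤ _ := mul_le_mul_of_nonneg_left h4 (by linarith)
  have e2 : lam * (1 - ζ) * (gg 1 - gg ζ) ≤ lam * (1 - ζ) * (dg * (1 - ζ)) :=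
    mul_le_mul_of_nonneg_left h5 (by positivity)
  have e3 : lam * (1 - ζ) * (dg * (1 - ζ)) < lam * gg 1 / 2 * (1 - ζ) ^ 2 := by
    have e4 : 0 < lam * (1 - ζ) ^ 2 := by positivity
    have e5 : dg < gg 1 / 2 := by linarith
    calc _ = lam * (1 - ζ) ^ 2 * dg := by ring
      _ < lam * (1 - ζ) ^ 2 * (gg 1 / 2) := mul_lt_mul_of_pos_left e5 e4
      _ = _ := by ring
  have e4 : 0 ≤ Z1 * EE ζ := by positivity
  linarith

lemma Nf_large (K : ℝ) : ∃ δ0 : ℝ, 0 < δ0 ∧ ∀ ζ : ℝ, 0 ≤ ζ → ζ ≤ 1 → 1 - ζ ≤ δ0 →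
    K * (1 - ζ) ^ 2 ≤ Nf ζ := by
  have h7 := lam_lt
  obtain ⟨δ0, hδ0, h⟩ := RR_large ((K + lam * dg) / (Z1 - lam))
  refine ⟨δ0, hδ0, fun ζ h0 h1 hζ => ?_⟩
  have h2 := Nf_eq ζ
  have h3 := EE_nonneg h0 h1
  have h4 := h ζ h0 h1 hζ
  have h5 := gg_sub_le h0 h1
  have h6 := lam_pos
  have h9 := Z1_pos
  have hδ : 0 ≤ 1 - ζ := by linarith
  have h8 : 0 < Z1 - lam := by linarith
  have e1 : (K + lam * dg) * (1 - ζ) ^ 2 ≤ (Z1 - lam) * RR ζ := by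
    calc (K + lam * dg) * (1 - ζ) ^ 2 =
        (Z1 - lam) * ((K + lam * dg) / (Z1 - lam) * (1 - ζ) ^ 2) := by field_simp
      _ ≤ _ := mul_le_mul_of_nonneg_left h4 h8.le
  have e2 : lam * (1 - ζ) * (gg 1 - gg ζ) ≤ lam * (1 - ζ) * (dg * (1 - ζ)) :=
    mul_le_mul_of_nonneg_left h5 (by positivity)
  have e4 : 0 ≤ Z1 * EE ζ := by positivity
  nlinarith

lemma Nf_small (e : ℝ) (he1 : 1 ≤ e) (he2 : e < 2) : ∃ C : ℝ, 0 < C ∧
    ∀ ζ : ℝ, 0 ≤ ζ → ζ ≤ 1 → Nf ζ ≤ C * (1 - ζ) ^ e := by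
  obtain ⟨C, hC, h⟩ := RR_small e he1 he2
  have h6 := lam_pos
  have h7 := lam_lt
  have h9 := Z1_pos
  have h10 := g1_ge
  have h11 := dg_ge
  refine ⟨Z1 * C + Z1 * (kap ^ 2 * (gg 1 + dg) ^ 2) + 1, by positivity, fun ζ h0 h1 => ?_⟩
  have h2 := Nf_eq ζ
  have h3 := EE_le h0 h1
  have h4 := h ζ h0 h1
  have hδ : 0 ≤ 1 - ζ := by linarith
  have h5 : 0 ≤ gg 1 - gg ζ := by have := gg_sub_ge h0 h1; linarith
  have hR := RR_nonneg h0 h1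
  have hy := yy_le h0 h1
  have hy2 := yy_ge h0 h1
  have e1 : (Z1 - lam) * RR ζ ≤ Z1 * (C * (1 - ζ) ^ e) :=
    (mul_le_mul_of_nonneg_right (by linarith) hR).trans (mul_le_mul_of_nonneg_left h4 h9.le)
  have e2 : 0 ≤ lam * (1 - ζ) * (gg 1 - gg ζ) := by positivity
  have e3 : (yy ζ - gg 1) ^ 2 ≤ ((gg 1 + dg) * (1 - ζ)) ^ 2 := by
    rw [show (yy ζ - gg 1) ^ 2 = (gg 1 - yy ζ) ^ 2 by ring]
    exact pow_le_pow_left₀ (by linarith) hy2 2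
  have e4 : (1 - ζ) ^ 2 ≤ (1 - ζ) ^ e := by
    rcases hδ.eq_or_lt with h | h
    · rw [← h, Real.zero_rpow (by linarith)]; norm_num
    · rw [← Real.rpow_natCast]
      exact Real.rpow_le_rpow_of_exponent_ge h (by linarith) (by push_cast; linarith)
  have e5 : Z1 * EE ζ ≤ Z1 * (kap ^ 2 * (gg 1 + dg) ^ 2) * (1 - ζ) ^ e := by
    calc Z1 * EE ζ ≤ Z1 * (kap ^ 2 * (yy ζ - gg 1) ^ 2) := by gcongr
      _ ≤ Z1 * (kap ^ 2 * ((gg 1 + dg) * (1 - ζ)) ^ 2) := by gcongr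
      _ = Z1 * (kap ^ 2 * (gg 1 + dg) ^ 2) * (1 - ζ) ^ 2 := by ring
      _ ≤ _ := by gcongr
  have e6 : 0 ≤ (1 - ζ) ^ e := by positivity
  nlinarith

/-- the increment of the Green function -/
noncomputable def Uf (ζ : ℝ) : ℝ := Gf 1 - Gf ζ

lemma Uf_ge (h0 : 0 ≤ ζ) (h1 : ζ ≤ 1) : (1 - ζ) / 64 ≤ Uf ζ := by
  have h2 := gg_sub_ge h0 h1
  have h3 := ss_le h0 h1
  unfold Uf
  rw [Gf_one]
  unfold Gf
  linarith

lemma Uf_le : ∃ C : ℝ, 0 < C ∧ ∀ ζ : ℝ, 0 ≤ ζ → ζ ≤ 1 → Uf ζ ≤ C * (1 - ζ) := by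
  have h10 := g1_ge
  have h11 := dg_ge
  have hk := kap_pos
  refine ⟨dg + kap ^ 2 * (gg 1 + dg) * (2 * gg 1), by positivity, fun ζ h0 h1 => ?_⟩
  have h2 := gg_sub_le h0 h1
  have h3 := ss_le h0 h1
  have h4 := ss_ge ζ
  have h5 := s1_gt
  have h6 := ss_sq ζ
  have h7 := kap_sq
  have hy := yy_le h0 h1
  have hy2 := yy_ge h0 h1
  have hy3 := gg_nonneg' h0 h1
  have e1 : s1 - ss ζ ≤ kap ^ 2 * (gg 1 + dg) * (2 * gg 1) * (1 - ζ) := by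
    calc s1 - ss ζ ≤ (s1 - ss ζ) * (s1 + ss ζ) := by nlinarith
      _ = kap ^ 2 * (gg 1 - yy ζ) * (gg 1 + yy ζ) := by linear_combination (-1) * h6 - h7
      _ ≤ kap ^ 2 * ((gg 1 + dg) * (1 - ζ)) * (2 * gg 1) := by
          have : 0 ≤ (gg 1 + dg) * (1 - ζ) := by
            have : 0 ≤ 1 - ζ := by linarith
            positivity
          gcongr
          linarith
      _ = _ := by ring
  unfold Uf
  rw [Gf_one]
  unfold Gf
  linarith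

lemma Zf_nonneg (h0 : 0 ≤ ζ) (h1 : ζ ≤ 1) : 0 ≤ Zf ζ :=
  div_nonneg (gg_nonneg' h0 h1) (by linarith [Gf_ge h0 h1])

lemma Zf_lt (h0 : 0 ≤ ζ) (h1 : ζ < 1) : Zf ζ < Z1 := by
  have h2 := Nf_pos h0 h1
  have h3 := Gf_ge h0 h1.le
  unfold Zf
  rw [div_lt_iff₀ (by linarith)]
  unfold Nf at h2
  linarith

/-- the squared normalised ratio -/
noncomputable def xx (ζ : ℝ) : ℝ := (Zf ζ / Z1) ^ 2

lemma xx_nonneg (ζ : ℝ) : 0 ≤ xx ζ := by unfold xx; positivity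

lemma ratio_bounds (h0 : 0 ≤ ζ) (h1 : ζ < 1) :
    Nf ζ / gg 1 ≤ 1 - Zf ζ / Z1 ∧ 1 - Zf ζ / Z1 ≤ Nf ζ / Z1 := by
  have h2 := Nf_pos h0 h1
  have h3 := Gf_ge h0 h1.le
  have h4 := Gf_le h0 h1.le
  have h5 := Z1_pos
  have h6 := Z1_eq
  have h7 := g1_ge
  rw [← Gf_one] at h6
  have hG : Gf ζ ≠ 0 := by linarith
  have e : 1 - Zf ζ / Z1 = Nf ζ / (Z1 * Gf ζ) := by
    unfold Zf Nf
    field_simp
  rw [e]
  constructor
  · refine div_le_div_of_nonneg_left h2.le (by positivity) ?_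
    rw [← h6]
    exact mul_le_mul_of_nonneg_left h4 h5.le
  · refine div_le_div_of_nonneg_left h2.le h5 ?_
    nlinarith

lemma xx_bounds (h0 : 0 ≤ ζ) (h1 : ζ < 1) :
    Nf ζ / gg 1 ≤ 1 - xx ζ ∧ 1 - xx ζ ≤ 2 * (Nf ζ / Z1) ∧ xx ζ < 1 := by
  obtain ⟨h2, h3⟩ := ratio_bounds h0 h1
  have h4 := Zf_lt h0 h1
  have h5 := Zf_nonneg h0 h1.le
  have h6 := Z1_pos
  have h7 : 0 ≤ Zf ζ / Z1 := by positivity
  have h8 : Zf ζ / Z1 < 1 := by rwa [div_lt_one h6]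
  unfold xx
  set r := Zf ζ / Z1 with hr
  refine ⟨?_, ?_, ?_⟩ <;> nlinarith

end

end Pool.Agent.W2helper27.RP
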