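import Mathlib
import Pool.Agent.W2helper27.RP.Crit

set_option autoImplicit false

/-!
The two contradictions: the coefficients neither dominate nor are dominated by a power.
-/

namespace Pool.Agent.W2helper27.RP

lemma one_sub_pow_half {x : ℝ} (h0 : 0 ≤ x) (h1 : x ≤ 1) (n : ℕ) (hn : 1 ≤ n * (1 - x)) :
    1 / 2 ≤ 1 - x ^ n := by
  have h2 := one_add_mul_le_pow (a := 1 - x) (by linarith) n
  have h3 : (1 + (1 - x)) ^ n * x ^ n ≤ 1 := by
    rw [← mul_pow]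
    refine pow_le_one₀ (by nlinarith) ?_
    nlinarith [sq_nonneg (1 - x)]
  have h4 : 0 ≤ x ^ n := pow_nonneg h0 n
  have h5 : 2 * x ^ n ≤ (1 + (1 - x)) ^ n * x ^ n :=
    mul_le_mul_of_nonneg_right (by linarith) h4
  linarith

theorem no_low (w : ℕ → ℝ) (hw : ∀ n, 0 ≤ w n)
    (hU : ∀ ζ, 0 < ζ → ζ < 1 → HasSum (fun n => w n * (1 - xx ζ ^ n)) (Uf ζ))
    (c : ℝ) (hc : 0 < c) (n0 : ℕ) (h : ∀ n, n0 ≤ n → c * (n : ℝ) ^ (-(3 / 2) : ℝ) ≤ w n) :
    False := by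
  obtain ⟨C, hC, hUle⟩ := Uf_le
  have hg := g1_ge
  have hZ := Z1_pos
  obtain ⟨δ0, hδ0, hN⟩ := Nf_large (64 * gg 1 * (C ^ 2 + 1) / c ^ 2)
  obtain ⟨C', hC', hN'⟩ := Nf_small 1 le_rfl (by norm_num)
  -- choose `δ`
  set δ : ℝ := min (min δ0 (1 / 2)) (Z1 / (2 * C' * (n0 + 1))) with hδ
  have hδpos : 0 < δ := by
    rw [hδ]
    refine lt_min (lt_min hδ0 (by norm_num)) (by positivity)
  have hδ1 : δ ≤ δ0 := (min_le_left _ _).trans (min_le_left _ _)
  have hδ2 : δ ≤ 1 / 2 := (min_le_left _ _).trans (min_le_right _ _)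
  have hδ3 : δ ≤ Z1 / (2 * C' * (n0 + 1)) := min_le_right _ _
  set ζ := 1 - δ with hζ
  have hζ0 : 0 < ζ := by linarith
  have hζ1 : ζ < 1 := by linarith
  have hζδ : 1 - ζ = δ := by linarith
  obtain ⟨b1, b2, b3⟩ := xx_bounds hζ0.le hζ1
  have hx0 := xx_nonneg ζ
  set x := xx ζ with hx
  set η := 1 - x with hη
  have hNpos := Nf_pos hζ0.le hζ1
  have hηpos : 0 < η := by linarith
  have hη1 : η ≤ 1 := by linarith
  have hN1 := hN ζ hζ0.le hζ1.le (by rw [hζδ]; exact hδ1)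
  have hN2 := hN' ζ hζ0.le hζ1.le
  rw [hζδ] at hN1 hN2
  rw [Real.rpow_one] at hN2
  have hη2 : η ≤ 1 / (n0 + 1) := by
    calc η ≤ 2 * (Nf ζ / Z1) := b2
      _ ≤ 2 * (C' * δ / Z1) := by gcongr
      _ ≤ 2 * (C' * (Z1 / (2 * C' * (n0 + 1))) / Z1) := by gcongr
      _ = 1 / (n0 + 1) := by field_simp
  -- the block
  set L := ⌈1 / η⌉₊ with hL
  have hL1 : 1 / η ≤ L := Nat.le_ceil _
  have hL2 : (L : ℝ) < 1 / η + 1 := Nat.ceil_lt_add_one (by positivity)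
  have hL3 : (L : ℝ) ≤ 2 / η := by
    have : 1 ≤ 1 / η := by rw [le_div_iff₀ hηpos]; linarith
    have e : 2 / η = 1 / η + 1 / η := by ring
    linarith
  have hLn0 : (n0 : ℝ) + 1 ≤ L := by
    refine le_trans ?_ hL1
    rw [le_div_iff₀ hηpos]
    rw [le_div_iff₀ (by positivity)] at hη2
    linarith
  have hLpos : (0 : ℝ) < L := by
    have : (0 : ℝ) ≤ n0 := Nat.cast_nonneg _
    linarith
  have hLn0' : n0 + 1 ≤ L := by exact_mod_cast hLn0
  have hterm : ∀ n ∈ Finset.Ico L (2 * L),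
      c * (2 * (L : ℝ)) ^ (-(3 / 2) : ℝ) * (1 / 2) ≤ w n * (1 - x ^ n) := by
    intro n hn
    rw [Finset.mem_Ico] at hn
    have hn1 : (L : ℝ) ≤ n := by exact_mod_cast hn.1
    have hn2 : (n : ℝ) ≤ 2 * L := by exact_mod_cast hn.2.le
    have e1 : 1 / 2 ≤ 1 - x ^ n := by
      refine one_sub_pow_half hx0 b3.le n ?_
      have : 1 ≤ (L : ℝ) * η := by
        rw [div_le_iff₀ hηpos] at hL1
        exact hL1
      calc (1 : ℝ) ≤ L * η := this
        _ ≤ n * η := by gcongr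
    have e2 : c * (2 * (L : ℝ)) ^ (-(3 / 2) : ℝ) ≤ w n := by
      refine le_trans ?_ (h n (by omega))
      refine mul_le_mul_of_nonneg_left ?_ hc.le
      exact Real.rpow_le_rpow_of_nonpos (by linarith) hn2 (by norm_num)
    exact mul_le_mul e2 e1 (by norm_num) (hw n)
  have hsum : ∑ n ∈ Finset.Ico L (2 * L), w n * (1 - x ^ n) ≤ Uf ζ := by
    refine sum_le_hasSum _ (fun n _ => mul_nonneg (hw n) ?_) (hU ζ hζ0 hζ1)
    have : x ^ n ≤ 1 := pow_le_one₀ hx0 b3.le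
    linarith
  have hblock : (L : ℝ) * (c * (2 * (L : ℝ)) ^ (-(3 / 2) : ℝ) * (1 / 2)) ≤ Uf ζ := by
    refine le_trans ?_ hsum
    have := Finset.sum_le_sum hterm
    rw [Finset.sum_const, Nat.card_Ico, nsmul_eq_mul] at this
    have e : ((2 * L - L : ℕ) : ℝ) = L := by congr 1; omega
    rw [e] at this
    exact this
  have hUC := hUle ζ hζ0.le hζ1.le
  rw [hζδ] at hUC
  -- square
  have hsq : ((L : ℝ) * (c * (2 * (L : ℝ)) ^ (-(3 / 2) : ℝ) * (1 / 2))) ^ 2 ≤ (C * δ) ^ 2 :=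
    pow_le_pow_left₀ (by positivity) (hblock.trans hUC) 2
  have e3 : ((2 * (L : ℝ)) ^ (-(3 / 2) : ℝ)) ^ 2 = 1 / (2 * L) ^ 3 := by
    rw [← Real.rpow_natCast, ← Real.rpow_mul (by positivity)]
    norm_num
  have e4 : ((L : ℝ) * (c * (2 * (L : ℝ)) ^ (-(3 / 2) : ℝ) * (1 / 2))) ^ 2 = c ^ 2 / (32 * L) := by
    calc _ = (L : ℝ) ^ 2 * c ^ 2 * ((2 * (L : ℝ)) ^ (-(3 / 2) : ℝ)) ^ 2 * (1 / 4) := by ring
      _ = _ := by rw [e3]; field_simp; norm_num
  rw [e4] at hsq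
  have e5 : c ^ 2 * η / 64 ≤ c ^ 2 / (32 * L) := by
    rw [div_le_div_iff₀ (by norm_num) (by positivity)]
    have : (L : ℝ) * η ≤ 2 := by rwa [le_div_iff₀ hηpos] at hL3
    have hc2 : 0 < c ^ 2 := by positivity
    nlinarith
  have e6 : 64 * (C ^ 2 + 1) / c ^ 2 * δ ^ 2 ≤ η := by
    refine le_trans ?_ b1
    rw [le_div_iff₀ (by linarith)]
    calc _ = 64 * gg 1 * (C ^ 2 + 1) / c ^ 2 * δ ^ 2 := by ring
      _ ≤ _ := hN1
  have e7 : c ^ 2 * (64 * (C ^ 2 + 1) / c ^ 2 * δ ^ 2) / 64 ≤ c ^ 2 * η / 64 := by gcongr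
  have e8 : c ^ 2 * (64 * (C ^ 2 + 1) / c ^ 2 * δ ^ 2) / 64 = (C ^ 2 + 1) * δ ^ 2 := by
    field_simp
  rw [e8] at e7
  have : 0 < δ ^ 2 := by positivity
  nlinarith

theorem no_up (w : ℕ → ℝ)
    (hU : ∀ ζ, 0 < ζ → ζ < 1 → HasSum (fun n => w n * (1 - xx ζ ^ n)) (Uf ζ))
    (d : ℝ) (hd : 3 / 2 < d) (C : ℝ) (h : ∀ n, 1 ≤ n → w n ≤ C * (n : ℝ) ^ (-d)) :
    False := by
  set θ : ℝ := min 1 ((2 * d - 1) / 4) with hθ
  have hθ1 : θ ≤ 1 := min_le_left _ _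
  have hθ2 : 1 / 2 < θ := by
    rw [hθ]
    exact lt_min (by norm_num) (by linarith)
  have hθ3 : θ < d - 1 := lt_of_le_of_lt (min_le_right _ _) (by linarith)
  have hθ0 : 0 < θ := by linarith
  set e : ℝ := (1 / θ + 2) / 2 with he
  have he1 : 1 ≤ e := by
    have : 1 ≤ 1 / θ := by rw [le_div_iff₀ hθ0]; linarith
    linarith
  have he2 : e < 2 := by
    have : 1 / θ < 2 := by rw [div_lt_iff₀ hθ0]; linarith
    linarith
  have heθ : e * θ = 1 / 2 + θ := by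
    rw [he]; field_simp
  obtain ⟨C', hC', hN⟩ := Nf_small e he1 he2
  have hZ := Z1_pos
  have hs : Summable fun n : ℕ => (n : ℝ) ^ (θ - d) := Real.summable_nat_rpow.2 (by linarith)
  set S := ∑' n : ℕ, (n : ℝ) ^ (θ - d) with hS
  have hS0 : 0 ≤ S := tsum_nonneg fun n => by positivity
  set C0 := |C| + 1 with hC0
  have hC0pos : 0 < C0 := by positivity
  set A : ℝ := C0 * S * (2 * C' / Z1) ^ θ + 1 with hA
  have hApos : 0 < A := by positivity
  set p := θ - 1 / 2 with hp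
  have hppos : 0 < p := by linarith
  set δ : ℝ := min (1 / 2) ((1 / (128 * A)) ^ (1 / p)) with hδ
  have hδpos : 0 < δ := lt_min (by norm_num) (by positivity)
  have hδ2 : δ ≤ 1 / 2 := min_le_left _ _
  have hδp : δ ^ p ≤ 1 / (128 * A) := by
    calc δ ^ p ≤ ((1 / (128 * A)) ^ (1 / p)) ^ p :=
          Real.rpow_le_rpow hδpos.le (min_le_right _ _) hppos.le
      _ = 1 / (128 * A) := by
          rw [← Real.rpow_mul (by positivity), one_div_mul_cancel hppos.ne', Real.rpow_one]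
  set ζ := 1 - δ with hζ
  have hζ0 : 0 < ζ := by linarith
  have hζ1 : ζ < 1 := by linarith
  have hζδ : 1 - ζ = δ := by linarith
  obtain ⟨b1, b2, b3⟩ := xx_bounds hζ0.le hζ1
  have hx0 := xx_nonneg ζ
  set x := xx ζ with hx
  set η := 1 - x with hη
  have hηpos : 0 < η := by linarith
  have hN1 := hN ζ hζ0.le hζ1.le
  rw [hζδ] at hN1
  have hη2 : η ≤ 2 * C' / Z1 * δ ^ e := by
    calc η ≤ 2 * (Nf ζ / Z1) := b2
      _ ≤ 2 * (C' * δ ^ e / Z1) := by gcongr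
      _ = _ := by ring
  have hterm : ∀ n, w n * (1 - x ^ n) ≤ C0 * η ^ θ * (n : ℝ) ^ (θ - d) := by
    intro n
    rcases Nat.eq_zero_or_pos n with rfl | hn
    · simp only [pow_zero, sub_self, mul_zero]
      positivity
    · have hn' : (0 : ℝ) < n := by exact_mod_cast hn
      have e1 : 0 ≤ 1 - x ^ n := by
        have : x ^ n ≤ 1 := pow_le_one₀ hx0 b3.le
        linarith
      have e2 : 1 - x ^ n ≤ (n * η) ^ θ := by
        have e3 := pw_bern hx0 n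
        have e4 : 1 - x ^ n ≤ 1 := by
          have : 0 ≤ x ^ n := pow_nonneg hx0 n
          linarith
        have e5 : 0 < n * η := by positivity
        rcases le_total (n * η) 1 with h6 | h6
        · refine e3.trans ?_
          calc n * η = (n * η) ^ (1 : ℝ) := (Real.rpow_one _).symm
            _ ≤ (n * η) ^ θ := Real.rpow_le_rpow_of_exponent_ge e5 h6 hθ1
        · exact e4.trans (Real.one_le_rpow h6 hθ0.le)
      have e3 : w n ≤ C0 * (n : ℝ) ^ (-d) := by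
        refine (h n hn).trans (mul_le_mul_of_nonneg_right ?_ (by positivity))
        rw [hC0]
        linarith [le_abs_self C]
      calc w n * (1 - x ^ n) ≤ (C0 * (n : ℝ) ^ (-d)) * (1 - x ^ n) :=
            mul_le_mul_of_nonneg_right e3 e1
        _ ≤ (C0 * (n : ℝ) ^ (-d)) * (n * η) ^ θ := mul_le_mul_of_nonneg_left e2 (by positivity)
        _ = _ := by
            rw [Real.mul_rpow hn'.le hηpos.le, show θ - d = -d + θ by ring, Real.rpow_add hn']
            ring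
  have hUle : Uf ζ ≤ C0 * η ^ θ * S :=
    hasSum_le hterm (hU ζ hζ0 hζ1) (hs.hasSum.mul_left _)
  have hUge := Uf_ge hζ0.le hζ1.le
  rw [hζδ] at hUge
  have e1 : η ^ θ ≤ (2 * C' / Z1) ^ θ * (δ ^ p * δ) := by
    calc η ^ θ ≤ (2 * C' / Z1 * δ ^ e) ^ θ := Real.rpow_le_rpow hηpos.le hη2 hθ0.le
      _ = (2 * C' / Z1) ^ θ * δ ^ (e * θ) := by
          rw [Real.mul_rpow (by positivity) (by positivity), ← Real.rpow_mul hδpos.le]
      _ = _ := by
          rw [heθ, show 1 / 2 + θ = p + 1 by rw [hp]; ring, Real.rpow_add hδpos, Real.rpow_one]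
  have e2 : δ / 64 ≤ A * (δ ^ p * δ) := by
    calc δ / 64 ≤ C0 * η ^ θ * S := hUge.trans hUle
      _ ≤ C0 * ((2 * C' / Z1) ^ θ * (δ ^ p * δ)) * S := by gcongr
      _ = (C0 * S * (2 * C' / Z1) ^ θ) * (δ ^ p * δ) := by ring
      _ ≤ A * (δ ^ p * δ) := by
          refine mul_le_mul_of_nonneg_right ?_ (by positivity)
          rw [hA]; linarith
  have e3 : A * (δ ^ p * δ) ≤ A * (1 / (128 * A) * δ) := by gcongr
  have e4 : A * (1 / (128 * A) * δ) = δ / 128 := by field_simp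
  linarith

end Pool.Agent.W2helper27.RP
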