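import Mathlib
import Pool.Agent.W2helper27.RP.Taub
import Pool.Agent.W2helper27.RP.Iter

set_option autoImplicit false

/-!
The Green function identity up to the critical value.
-/

namespace Pool.Agent.W2helper27.RP

open Monoid Filter Topology

lemma analyticAt_tsum (a : ℕ → ℝ) (r : ℝ) (hr : 0 < r) (C : ℝ) (h : ∀ n, |a n| * r ^ n ≤ C)
    (x : ℝ) (hx : |x| < r) : AnalyticAt ℝ (fun x => ∑' n, a n * x ^ n) x := by
  set p := FormalMultilinearSeries.ofScalars ℝ a with hp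
  obtain ⟨R, rfl⟩ : ∃ R : NNReal, (R : ℝ) = r := ⟨⟨r, hr.le⟩, rfl⟩
  have h1 : (R : ENNReal) ≤ p.radius := by
    refine p.le_radius_of_bound C fun n => ?_
    rw [hp, FormalMultilinearSeries.ofScalars_norm]
    exact h n
  have hr' : (0 : ENNReal) < (R : ENNReal) := by
    rw [ENNReal.coe_pos]
    exact hr
  have h2 := p.hasFPowerSeriesOnBall (hr'.trans_le h1)
  have h3 : AnalyticAt ℝ p.sum x := by
    refine h2.analyticAt_of_mem ?_
    rw [Metric.mem_eball]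
    refine lt_of_lt_of_le ?_ h1
    rw [edist_dist, dist_zero_right, Real.norm_eq_abs]
    rw [ENNReal.ofReal, ENNReal.coe_lt_coe]
    rw [← NNReal.coe_lt_coe]
    rw [Real.coe_toNNReal _ (abs_nonneg x)]
    exact hx
  have h4 : p.sum = fun x => ∑' n, a n * x ^ n := by
    have := FormalMultilinearSeries.ofScalarsSum_eq_tsum (E := ℝ) a
    rw [FormalMultilinearSeries.ofScalarsSum] at this
    rw [hp, this]
    rfl
  rw [← h4]
  exact h3

lemma hh_even (n : ℕ) : hh (2 * n) 0 = cc n := by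
  unfold hh cc bb
  simp only [Pi.zero_apply, Finset.prod_const, Finset.card_univ, Fintype.card_fin]
  rw [qq_even]

lemma hh_odd (n : ℕ) : hh (2 * n + 1) 0 = 0 := by
  unfold hh
  simp only [Pi.zero_apply, Finset.prod_const, Finset.card_univ, Fintype.card_fin]
  rw [qq_odd]
  norm_num

lemma gs_eq_gg {ζ : ℝ} (h0 : 0 ≤ ζ) (h1 : ζ < 1) : gs ζ 0 = gg ζ := by
  unfold gs
  have he : HasSum (fun n : ℕ => ζ ^ (2 * n) * hh (2 * n) 0) (gg ζ) := by
    have h2 := (gsum h0 h1.le).hasSum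
    have e : (fun n : ℕ => ζ ^ (2 * n) * hh (2 * n) 0) = fun n : ℕ => cc n * ζ ^ (2 * n) := by
      funext n
      rw [hh_even, mul_comm]
    rw [e]
    exact h2
  have ho : HasSum (fun n : ℕ => ζ ^ (2 * n + 1) * hh (2 * n + 1) 0) 0 := by
    simp only [hh_odd, mul_zero]
    exact hasSum_zero
  have := HasSum.even_add_odd (f := fun k => ζ ^ k * hh k 0) he ho
  rw [add_zero] at this
  exact this.tsum_eq

/-- first weight -/
noncomputable def al : ℝ := 1 / (1 + kap)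

/-- second weight -/
noncomputable def be : ℝ := kap / (1 + kap)

lemma al_pos : 0 < al := by have := kap_pos; unfold al; positivity

lemma be_pos : 0 < be := by have := kap_pos; unfold be; positivity

lemma al_add_be : al + be = 1 := by
  have := kap_pos
  unfold al be
  field_simp

lemma be_eq : be = kap * al := by unfold al be; ring

/-- the parameter of the second factor function -/
noncomputable def qz (ζ : ℝ) : ℝ := (ss ζ - 1) / (kap * yy ζ)

/-- the argument of the Green function -/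
noncomputable def zz (ζ : ℝ) : ℝ := Zf ζ / al

section

variable {ζ : ℝ}

lemma yy_pos (h0 : 0 < ζ) (h1 : ζ < 1) : 0 < yy ζ := by
  unfold yy
  have := gg_ge_one h0.le h1.le
  positivity

lemma ss_gt (h0 : 0 < ζ) (h1 : ζ < 1) : 1 < ss ζ := by
  have h2 := yy_pos h0 h1
  have h3 := kap_pos
  have h4 := ss_sq ζ
  have h5 := ss_ge ζ
  have h6 : 0 < (kap * yy ζ) ^ 2 := by positivity
  nlinarith

lemma qz_sq (h0 : 0 < ζ) (h1 : ζ < 1) : qz ζ ^ 2 * (ss ζ + 1) = ss ζ - 1 := by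
  have h2 := yy_pos h0 h1
  have h3 := kap_pos
  have h4 := ss_sq ζ
  have h5 : kap * yy ζ ≠ 0 := by positivity
  unfold qz
  rw [div_pow, div_mul_eq_mul_div, div_eq_iff (by positivity)]
  linear_combination (ss ζ - 1) * h4

lemma qz_pos (h0 : 0 < ζ) (h1 : ζ < 1) : 0 < qz ζ := by
  have h2 := yy_pos h0 h1
  have h3 := kap_pos
  have h5 := ss_gt h0 h1
  unfold qz
  exact div_pos (by linarith) (by positivity)

lemma qz_lt (h0 : 0 < ζ) (h1 : ζ < 1) : qz ζ < 1 := by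
  have h2 := qz_sq h0 h1
  have h3 := ss_gt h0 h1
  have h4 := qz_pos h0 h1
  by_contra hcon
  push Not at hcon
  nlinarith [mul_self_nonneg (qz ζ - 1)]

lemma qz_gb (h0 : 0 < ζ) (h1 : ζ < 1) : (1 + qz ζ ^ 2) / (1 - qz ζ ^ 2) = ss ζ := by
  have h2 := qz_sq h0 h1
  have h3 := ss_gt h0 h1
  have h4 := qz_pos h0 h1
  have h5 := qz_lt h0 h1
  have h6 : 0 < 1 - qz ζ ^ 2 := by nlinarith
  rw [div_eq_iff h6.ne']
  linarith

lemma qz_zb (h0 : 0 < ζ) (h1 : ζ < 1) : 2 * qz ζ / (1 + qz ζ ^ 2) * ss ζ = kap * yy ζ := by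
  have h2 := qz_sq h0 h1
  have h3 := ss_gt h0 h1
  have h4 := qz_pos h0 h1
  have h5 := qz_lt h0 h1
  have hy := yy_pos h0 h1
  have hk := kap_pos
  have h7 : qz ζ * (kap * yy ζ) = ss ζ - 1 := by
    unfold qz
    rw [div_mul_cancel₀]
    positivity
  have h8 : 0 < 1 + qz ζ ^ 2 := by positivity
  rw [div_mul_eq_mul_div, div_eq_iff h8.ne']
  have h9 := ss_sq ζ
  have h10 : qz ζ * (2 * qz ζ * ss ζ) = qz ζ * (kap * yy ζ * (1 + qz ζ ^ 2)) := by
    linear_combination (-(1 + qz ζ ^ 2)) * h7 + h2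
  exact mul_left_cancel₀ h4.ne' h10

/-- the factor functions -/
noncomputable def Ph (ζ : ℝ) (i : Bool) : M6 → ℝ := if i then phi0 ζ else phi1 (qz ζ)

lemma Ph_one (h0 : 0 < ζ) (h1 : ζ < 1) (i : Bool) : Ph ζ i 1 = 1 := by
  unfold Ph
  split_ifs
  · exact phi0_one h0.le h1
  · exact phi1_one _

lemma Ph_nonneg (h0 : 0 < ζ) (h1 : ζ < 1) (i : Bool) (x : M6) : 0 ≤ Ph ζ i x := by
  unfold Ph
  split_ifs
  · exact phi0_nonneg h0.le x
  · exact phi1_nonneg (qz_pos h0 h1).le x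

lemma Ph_le_one (h0 : 0 < ζ) (h1 : ζ ≤ 1 / 2) (i : Bool) (x : M6) : Ph ζ i x ≤ 1 := by
  have h2 : ζ < 1 := by linarith
  unfold Ph
  split_ifs
  · exact phi0_le_one h0.le h1 x
  · exact phi1_le_one (qz_pos h0 h2).le (qz_lt h0 h2).le x

/-- the Green function -/
noncomputable def GG' (ζ : ℝ) (x : G6) : ℝ := grn (Ph ζ) (Gf ζ) x

lemma GG'_eq (h0 : 0 < ζ) (h1 : ζ < 1) (x : G6) : GG' ζ x = dl x + zz ζ * NN al be (GG' ζ) x := by
  have hG := Gf_ge h0.le h1.le
  have hg := gg_ge_one h0.le h1.le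
  have hs := ss_gt h0 h1
  have ha := al_pos
  have hq := qz_gb h0 h1
  have hq2 := qz_zb h0 h1
  have e1 : gs ζ 0 = gg ζ := gs_eq_gg h0.le h1
  have key := grn_eq uu vv (al * (1 / 64)) (be * (1 / 2)) (zz ζ) (Ph ζ) (Ph_one h0 h1)
    (gg ζ) (ss ζ) ζ (2 * qz ζ / (1 + qz ζ ^ 2)) (Gf ζ) (1 / 64) (1 / 2)
    (by linarith) (by linarith) (by linarith) rfl ?_ ?_ ?_ ?_ x
  · rw [dl_eq]
    exact key
  · intro y
    have := phi0_eq h0.le h1 y
    rw [e1] at this
    exact this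
  · intro y
    have := phi1_eq (qz_pos h0 h1) (qz_lt h0 h1) y
    rw [hq] at this
    exact this
  · unfold zz Zf yy
    field_simp
  · rw [hq2, be_eq]
    unfold zz Zf
    field_simp

lemma mw_nonneg (φ : Bool → M6 → ℝ) (h : ∀ i x, 0 ≤ φ i x) (w : WW M6) : 0 ≤ mw φ w := by
  unfold mw
  refine List.prod_nonneg fun a ha => ?_
  rw [List.mem_map] at ha
  obtain ⟨y, -, rfl⟩ := ha
  exact h _ _

lemma list_prod_le_one (l : List ℝ) (h : ∀ a ∈ l, 0 ≤ a ∧ a ≤ 1) : l.prod ≤ 1 := by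
  induction l with
  | nil => simp
  | cons a l ih =>
    rw [List.prod_cons]
    have h1 := h a List.mem_cons_self
    have h2 := ih fun b hb => h b (List.mem_cons_of_mem _ hb)
    have h3 : 0 ≤ l.prod := List.prod_nonneg fun b hb => (h b (List.mem_cons_of_mem _ hb)).1
    nlinarith

lemma mw_le_one (φ : Bool → M6 → ℝ) (h : ∀ i x, 0 ≤ φ i x) (h' : ∀ i x, φ i x ≤ 1) (w : WW M6) :
    mw φ w ≤ 1 := by
  unfold mw
  refine list_prod_le_one _ fun a ha => ?_
  rw [List.mem_map] at ha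
  obtain ⟨y, -, rfl⟩ := ha
  exact ⟨h _ _, h' _ _⟩

lemma GG'_nonneg (h0 : 0 < ζ) (h1 : ζ < 1) (x : G6) : 0 ≤ GG' ζ x := by
  unfold GG' grn
  have := Gf_ge h0.le h1.le
  exact mul_nonneg (by linarith) (mw_nonneg _ (fun i x => Ph_nonneg h0 h1 i x) _)

lemma GG'_le (h0 : 0 < ζ) (h1 : ζ ≤ 1 / 2) (x : G6) : GG' ζ x ≤ Gf ζ := by
  have h2 : ζ < 1 := by linarith
  unfold GG' grn
  have := Gf_ge h0.le h2.le
  exact mul_le_of_le_one_right (by linarith)
    (mw_le_one _ (fun i x => Ph_nonneg h0 h2 i x) (fun i x => Ph_le_one h0 h1 i x) _)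

lemma zz_nonneg (h0 : 0 ≤ ζ) (h1 : ζ ≤ 1) : 0 ≤ zz ζ :=
  div_nonneg (Zf_nonneg h0 h1) al_pos.le

lemma part_eq (h0 : 0 < ζ) (h1 : ζ < 1) (n : ℕ) :
    Gf ζ = ∑ k ∈ Finset.range n, gam al be k * zz ζ ^ k + zz ζ ^ n * (NN al be)^[n] (GG' ζ) 1 := by
  have h := iter_eq al be (zz ζ) (GG' ζ) (GG'_eq h0 h1) n 1
  have e : GG' ζ 1 = Gf ζ := grn_one _ _
  rw [e] at h
  rw [h]
  congr 1
  refine Finset.sum_congr rfl fun k _ => ?_
  unfold gam
  ring

lemma part_le (h0 : 0 < ζ) (h1 : ζ < 1) (n : ℕ) :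
    ∑ k ∈ Finset.range n, gam al be k * zz ζ ^ k ≤ Gf ζ := by
  have h2 := part_eq h0 h1 n
  have h3 : 0 ≤ (NN al be)^[n] (GG' ζ) 1 :=
    NN_iter_nonneg al_pos.le be_pos.le n (fun x => GG'_nonneg h0 h1 x) 1
  have h4 := pow_nonneg (zz_nonneg h0.le h1.le) n
  have h5 := mul_nonneg h4 h3
  linarith

lemma gz_summable (h0 : 0 < ζ) (h1 : ζ < 1) : Summable fun k => gam al be k * zz ζ ^ k :=
  summable_of_sum_range_le
    (fun k => mul_nonneg (gam_nonneg al_pos.le be_pos.le k) (pow_nonneg (zz_nonneg h0.le h1.le) k))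
    (part_le h0 h1)

lemma small_eq (h0 : 0 < ζ) (h1 : ζ ≤ 1 / 2) (h2 : ζ < al) :
    ∑' k, gam al be k * zz ζ ^ k = Gf ζ := by
  have h1' : ζ < 1 := by linarith
  have hz1 : zz ζ < 1 := by
    unfold zz Zf
    have hG : gg ζ ≤ Gf ζ := by
      unfold Gf; have := ss_ge ζ; linarith
    have hg := gg_ge_one h0.le h1'.le
    rw [div_lt_one al_pos, div_lt_iff₀ (by linarith)]
    unfold yy
    calc ζ * gg ζ ≤ ζ * Gf ζ := by gcongr
      _ < al * Gf ζ := mul_lt_mul_of_pos_right h2 (by linarith)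
  have hz0 := zz_nonneg h0.le h1'.le
  have ht : Tendsto (fun n => ∑ k ∈ Finset.range n, gam al be k * zz ζ ^ k) atTop (𝓝 (Gf ζ)) := by
    have h3 : Tendsto (fun n => zz ζ ^ n * (NN al be)^[n] (GG' ζ) 1) atTop (𝓝 0) := by
      have h4 : Tendsto (fun n => zz ζ ^ n * Gf ζ) atTop (𝓝 0) := by
        have := (tendsto_pow_atTop_nhds_zero_of_lt_one hz0 hz1).mul_const (Gf ζ)
        rwa [zero_mul] at this
      refine squeeze_zero (fun n => ?_) (fun n => ?_) h4
      · exact mul_nonneg (pow_nonneg hz0 n)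
          (NN_iter_nonneg al_pos.le be_pos.le n (fun x => GG'_nonneg h0 h1' x) 1)
      · exact mul_le_mul_of_nonneg_left
          (NN_iter_le al_pos.le be_pos.le al_add_be n (fun x => GG'_le h0 h1 x) 1)
          (pow_nonneg hz0 n)
    have h5 : (fun n => ∑ k ∈ Finset.range n, gam al be k * zz ζ ^ k) =
        fun n => Gf ζ - zz ζ ^ n * (NN al be)^[n] (GG' ζ) 1 := by
      funext n
      have := part_eq h0 h1' n
      linarith
    rw [h5]
    have := h3.const_sub (Gf ζ)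
    rwa [sub_zero] at this
  exact tendsto_nhds_unique (gz_summable h0 h1').hasSum.tendsto_sum_nat ht

end

end Pool.Agent.W2helper27.RP
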