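import Mathlib
import Pool.Agent.W2helper27.RP.Anal

set_option autoImplicit false

/-!
Analytic continuation of the identity and the final contradiction.
-/

namespace Pool.Agent.W2helper27.RP

open Monoid Filter Topology

lemma analyticAt_gg {ζ : ℝ} (h0 : 0 < ζ) (h1 : ζ < 1) : AnalyticAt ℝ gg ζ := by
  have h2 : AnalyticAt ℝ (fun x : ℝ => ∑' n, cc n * x ^ n) (ζ ^ 2) := by
    refine analyticAt_tsum cc 1 one_pos 1 (fun n => ?_) _ ?_
    · rw [one_pow, mul_one, abs_of_nonneg (cc_nonneg n)]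
      refine (cc_up n).trans ?_
      rw [div_le_one (by positivity)]
      have : (1 : ℝ) ≤ 2 * n + 1 := by linarith [(Nat.cast_nonneg n : (0 : ℝ) ≤ n)]
      exact one_le_pow₀ this
    · rw [abs_of_nonneg (by positivity)]
      nlinarith
  have h3 : AnalyticAt ℝ (fun x : ℝ => x ^ 2) ζ := analyticAt_id.pow 2
  have h4 : AnalyticAt ℝ ((fun x : ℝ => ∑' n, cc n * x ^ n) ∘ (fun x : ℝ => x ^ 2)) ζ :=
    AnalyticAt.comp (f := fun x : ℝ => x ^ 2) h2 h3
  have h5 : gg = (fun x : ℝ => ∑' n, cc n * x ^ n) ∘ (fun x : ℝ => x ^ 2) := by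
    funext x
    unfold gg
    simp only [Function.comp]
    refine tsum_congr fun n => ?_
    rw [pow_mul]
  rw [h5]
  exact h4

lemma analyticAt_yy {ζ : ℝ} (h0 : 0 < ζ) (h1 : ζ < 1) : AnalyticAt ℝ yy ζ :=
  analyticAt_id.mul (analyticAt_gg h0 h1)

lemma analyticAt_ss {ζ : ℝ} (h0 : 0 < ζ) (h1 : ζ < 1) : AnalyticAt ℝ ss ζ := by
  have h2 : AnalyticAt ℝ (fun ζ => 1 + (kap * yy ζ) ^ 2) ζ :=
    analyticAt_const.add ((analyticAt_const.mul (analyticAt_yy h0 h1)).pow 2)
  have h3 : AnalyticAt ℝ Real.sqrt (1 + (kap * yy ζ) ^ 2) :=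
    (Real.contDiffAt_sqrt (by positivity)).analyticAt
  exact AnalyticAt.comp (g := Real.sqrt) (f := fun ζ => 1 + (kap * yy ζ) ^ 2) h3 h2

lemma analyticAt_Gf {ζ : ℝ} (h0 : 0 < ζ) (h1 : ζ < 1) : AnalyticAt ℝ Gf ζ :=
  ((analyticAt_gg h0 h1).add (analyticAt_ss h0 h1)).sub analyticAt_const

lemma analyticAt_zz {ζ : ℝ} (h0 : 0 < ζ) (h1 : ζ < 1) : AnalyticAt ℝ zz ζ := by
  have hG := Gf_ge h0.le h1.le
  have h2 : AnalyticAt ℝ Zf ζ := (analyticAt_yy h0 h1).div (analyticAt_Gf h0 h1) (by linarith)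
  exact h2.div analyticAt_const al_pos.ne'

lemma exists_close {ε : ℝ} (hε : 0 < ε) (ζ0 : ℝ) (h1 : ζ0 < 1) : ∃ ζ : ℝ, 0 < ζ ∧ ζ0 ≤ ζ ∧ ζ < 1 ∧
    Z1 - Zf ζ < ε ∧ Uf ζ < ε := by
  obtain ⟨C, hC, hN⟩ := Nf_small 1 le_rfl (by norm_num)
  obtain ⟨C', hC', hU⟩ := Uf_le
  set δ : ℝ := min (min (1 / 2) (1 - ζ0)) (ε / (2 * (C + C'))) with hδ
  have hδpos : 0 < δ := lt_min (lt_min (by norm_num) (by linarith)) (by positivity)
  have hδ1 : δ ≤ 1 / 2 := (min_le_left _ _).trans (min_le_left _ _)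
  have hδ2 : δ ≤ 1 - ζ0 := (min_le_left _ _).trans (min_le_right _ _)
  have hδ3 : δ ≤ ε / (2 * (C + C')) := min_le_right _ _
  have hδ4 : (C + C') * δ ≤ ε / 2 := by
    calc (C + C') * δ ≤ (C + C') * (ε / (2 * (C + C'))) := by gcongr
      _ = ε / 2 := by field_simp
  have h0 : 0 < 1 - δ := by linarith
  have h1' : 1 - δ < 1 := by linarith
  refine ⟨1 - δ, h0, by linarith, h1', ?_, ?_⟩
  · have h2 := hN (1 - δ) h0.le h1'.le
    rw [Real.rpow_one, show 1 - (1 - δ) = δ by ring] at h2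
    have h3 := Gf_ge h0.le h1'.le
    have h4 := Nf_pos h0.le h1'
    have h5 : Z1 - Zf (1 - δ) = Nf (1 - δ) / Gf (1 - δ) := by
      unfold Zf Nf
      field_simp
    rw [h5, div_lt_iff₀ (by linarith)]
    have : 0 < C' * δ := by positivity
    nlinarith
  · have h2 := hU (1 - δ) h0.le h1'.le
    rw [show 1 - (1 - δ) = δ by ring] at h2
    have : 0 < C * δ := by positivity
    nlinarith

/-- the generating function of the return probabilities -/
noncomputable def Ga (z : ℝ) : ℝ := ∑' k, gam al be k * z ^ k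

lemma analyticAt_Ga {ζ : ℝ} (h0 : 0 < ζ) (h1 : ζ < 1) : AnalyticAt ℝ Ga (zz ζ) := by
  have h2 := Zf_lt h0.le h1
  obtain ⟨ζ', a1, a2, a3, a4, -⟩ := exists_close (ε := Z1 - Zf ζ) (by linarith) ζ h1
  have h3 : zz ζ < zz ζ' := by
    unfold zz
    have : Zf ζ < Zf ζ' := by linarith
    exact div_lt_div_of_pos_right this al_pos
  have h4 := zz_nonneg h0.le h1.le
  refine analyticAt_tsum _ (zz ζ') (by linarith) (Gf ζ') (fun n => ?_) _ ?_
  · rw [abs_of_nonneg (gam_nonneg al_pos.le be_pos.le n)]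
    have h5 := part_le a1 a3 (n + 1)
    rw [Finset.sum_range_succ] at h5
    have h6 : 0 ≤ ∑ k ∈ Finset.range n, gam al be k * zz ζ' ^ k :=
      Finset.sum_nonneg fun k _ =>
        mul_nonneg (gam_nonneg al_pos.le be_pos.le k) (pow_nonneg (by linarith) k)
    linarith
  · rw [abs_of_nonneg h4]
    exact h3

lemma Ga_eq {ζ : ℝ} (h0 : 0 < ζ) (h1 : ζ < 1) : Ga (zz ζ) = Gf ζ := by
  have ha : AnalyticOnNhd ℝ (fun ζ => Ga (zz ζ)) (Set.Ioo 0 1) := fun x hx =>
    AnalyticAt.comp (g := Ga) (f := zz) (analyticAt_Ga hx.1 hx.2) (analyticAt_zz hx.1 hx.2)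
  have hb : AnalyticOnNhd ℝ Gf (Set.Ioo 0 1) := fun x hx => analyticAt_Gf hx.1 hx.2
  have hal := al_pos
  set m := min (1 / 2) al with hm
  have hm0 : 0 < m := lt_min (by norm_num) hal
  have hm1 : m ≤ 1 / 2 := min_le_left _ _
  have hm2 : m ≤ al := min_le_right _ _
  have hz : m / 2 ∈ Set.Ioo (0 : ℝ) 1 := ⟨by linarith, by linarith⟩
  have hev : (fun ζ => Ga (zz ζ)) =ᶠ[𝓝 (m / 2)] Gf := by
    have : Set.Ioo 0 m ∈ 𝓝 (m / 2) := Ioo_mem_nhds (by linarith) (by linarith)
    filter_upwards [this] with x hx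
    exact small_eq hx.1 (by linarith [hx.2]) (by linarith [hx.2])
  exact ha.eqOn_of_preconnected_of_eventuallyEq hb isPreconnected_Ioo hz hev ⟨h0, h1⟩

/-- the critical argument -/
noncomputable def zc : ℝ := Z1 / al

lemma zc_pos : 0 < zc := div_pos Z1_pos al_pos

lemma part_crit (n : ℕ) : ∑ k ∈ Finset.range n, gam al be k * zc ^ k ≤ Gf 1 := by
  have hcont : Continuous fun z : ℝ => ∑ k ∈ Finset.range n, gam al be k * z ^ k := by fun_prop
  refine le_of_forall_pos_le_add fun ε hε => ?_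
  obtain ⟨η, hη, hη2⟩ := Metric.continuous_iff.1 hcont zc ε hε
  obtain ⟨ζ, a1, -, a3, a4, -⟩ := exists_close (ε := al * η) (mul_pos al_pos hη) 0 one_pos
  have h1 : dist (zz ζ) zc < η := by
    rw [Real.dist_eq, abs_sub_comm]
    have h2 := Zf_lt a1.le a3
    have h3 : zc - zz ζ = (Z1 - Zf ζ) / al := by unfold zc zz; ring
    rw [h3, abs_of_nonneg (div_nonneg (by linarith) al_pos.le), div_lt_iff₀ al_pos]
    linarith
  have h2 := hη2 _ h1
  rw [Real.dist_eq, abs_lt] at h2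
  have h3 := part_le a1 a3 n
  have h4 := Gf_le a1.le a3.le
  linarith [h2.1]

lemma crit_summable : Summable fun k => gam al be k * zc ^ k :=
  summable_of_sum_range_le
    (fun k => mul_nonneg (gam_nonneg al_pos.le be_pos.le k) (pow_nonneg zc_pos.le k)) part_crit

lemma zz_le {ζ : ℝ} (h0 : 0 < ζ) (h1 : ζ < 1) : zz ζ ≤ zc :=
  div_le_div_of_nonneg_right (Zf_lt h0.le h1).le al_pos.le

lemma crit_hasSum : HasSum (fun k => gam al be k * zc ^ k) (Gf 1) := by
  have h1 : ∑' k, gam al be k * zc ^ k = Gf 1 := by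
    refine le_antisymm ?_ ?_
    · exact crit_summable.tsum_le_of_sum_range_le part_crit
    · refine le_of_forall_pos_le_add fun ε hε => ?_
      obtain ⟨ζ, a1, -, a3, -, a5⟩ := exists_close hε 0 one_pos
      have h2 : Gf ζ ≤ ∑' k, gam al be k * zc ^ k := by
        rw [← Ga_eq a1 a3]
        refine Summable.tsum_le_tsum (fun k => ?_) (gz_summable a1 a3) crit_summable
        exact mul_le_mul_of_nonneg_left (pow_le_pow_left₀ (zz_nonneg a1.le a3.le) (zz_le a1 a3) k)
          (gam_nonneg al_pos.le be_pos.le k)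
      unfold Uf at a5
      linarith
  rw [← h1]
  exact crit_summable.hasSum

/-- the weights -/
noncomputable def ww (n : ℕ) : ℝ := gam al be (2 * n) * zc ^ (2 * n)

lemma ww_nonneg (n : ℕ) : 0 ≤ ww n :=
  mul_nonneg (gam_nonneg al_pos.le be_pos.le _) (pow_nonneg zc_pos.le _)

lemma ww_hasSum (ζ : ℝ) (h0 : 0 < ζ) (h1 : ζ < 1) :
    HasSum (fun n => ww n * (1 - xx ζ ^ n)) (Uf ζ) := by
  have h2 : HasSum (fun k => gam al be k * zz ζ ^ k) (Gf ζ) := by
    rw [← Ga_eq h0 h1]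
    exact (gz_summable h0 h1).hasSum
  have h3 := crit_hasSum.sub h2
  have hinj : Function.Injective (fun n : ℕ => 2 * n) := fun a b h => by
    simp only at h; omega
  have h4 : HasSum ((fun k => gam al be k * zc ^ k - gam al be k * zz ζ ^ k) ∘
      (fun n : ℕ => 2 * n)) (Gf 1 - Gf ζ) := by
    rw [hinj.hasSum_iff]
    · exact h3
    · intro k hk
      have : k % 2 = 1 := by
        by_contra hcon
        exact hk ⟨k / 2, by simp only; omega⟩
      have e : k = 2 * (k / 2) + 1 := by omega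
      rw [e, gam_odd]
      ring
  have h5 : (fun n => ww n * (1 - xx ζ ^ n)) = ((fun k => gam al be k * zc ^ k -
      gam al be k * zz ζ ^ k) ∘ (fun n : ℕ => 2 * n)) := by
    funext n
    simp only [Function.comp]
    have e1 : zz ζ = zc * (Zf ζ / Z1) := by
      unfold zz zc
      have := Z1_pos
      have := al_pos
      field_simp
    unfold ww xx
    rw [e1, mul_pow, ← pow_mul]
    ring
  rw [h5]
  exact h4

theorem not_equiv (ρ c d : ℝ) (hc : 0 < c)
    (h : Asymptotics.IsEquivalent atTop (fun n : ℕ => gam al be (2 * n))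
      (fun n : ℕ => c * (n : ℝ) ^ (-d) * ρ ^ (2 * n))) : False := by
  have hz := zc_pos
  set τ : ℝ := (ρ * zc) ^ 2 with hτ
  have hτ0 : 0 ≤ τ := by positivity
  have h1 : Asymptotics.IsEquivalent atTop ww (fun n : ℕ => c * ((n : ℝ) ^ (-d) * τ ^ n)) := by
    have h2 := h.mul (Asymptotics.IsEquivalent.refl (u := fun n : ℕ => zc ^ (2 * n)))
    have e1 : ww = (fun n : ℕ => gam al be (2 * n)) * fun n : ℕ => zc ^ (2 * n) := by
      funext n; rfl
    have e2 : (fun n : ℕ => c * ((n : ℝ) ^ (-d) * τ ^ n)) =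
        (fun n : ℕ => c * (n : ℝ) ^ (-d) * ρ ^ (2 * n)) * fun n : ℕ => zc ^ (2 * n) := by
      funext n
      simp only [Pi.mul_apply]
      rw [hτ, ← pow_mul, mul_pow]
      ring
    rw [e1, e2]
    exact h2
  have hlow : ∀ᶠ n : ℕ in atTop, c / 2 * ((n : ℝ) ^ (-d) * τ ^ n) ≤ ww n := by
    have h2 := h1.def (c := 1 / 2) (by norm_num)
    filter_upwards [h2] with n hn
    have h3 : 0 ≤ c * ((n : ℝ) ^ (-d) * τ ^ n) := by positivity
    simp only [Pi.sub_apply, Real.norm_eq_abs] at hn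
    rw [abs_of_nonneg h3, abs_le] at hn
    linarith [hn.1]
  have hup : ∀ᶠ n : ℕ in atTop, ww n ≤ 2 * c * ((n : ℝ) ^ (-d) * τ ^ n) := by
    have h2 := h1.def (c := 1) (by norm_num)
    filter_upwards [h2] with n hn
    have h3 : 0 ≤ c * ((n : ℝ) ^ (-d) * τ ^ n) := by positivity
    simp only [Pi.sub_apply, Real.norm_eq_abs] at hn
    rw [abs_of_nonneg h3, abs_le] at hn
    linarith [hn.2]
  -- reduction of the upper case
  have caseup : ∀ (d' C' : ℝ), 3 / 2 < d' →
      (∀ᶠ n : ℕ in atTop, ww n ≤ C' * (n : ℝ) ^ (-d')) → False := by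
    intro d' C' hd' hev
    obtain ⟨N, hN⟩ := eventually_atTop.1 hev
    set S := ∑ n ∈ Finset.range (N + 1), |ww n| * (n : ℝ) ^ d' with hS
    have hS0 : 0 ≤ S := Finset.sum_nonneg fun n _ => by positivity
    refine no_up ww ww_hasSum d' hd' (|C'| + S) fun n hn => ?_
    have hn' : (0 : ℝ) < n := by exact_mod_cast hn
    rcases le_total N n with h2 | h2
    · refine (hN n h2).trans (mul_le_mul_of_nonneg_right ?_ (by positivity))
      linarith [le_abs_self C']
    · have h3 : |ww n| * (n : ℝ) ^ d' ≤ S :=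
        Finset.single_le_sum (f := fun n : ℕ => |ww n| * (n : ℝ) ^ d') (fun n _ => by positivity)
          (Finset.mem_range.2 (by omega))
      have h4 : ww n = ww n * (n : ℝ) ^ d' * (n : ℝ) ^ (-d') := by
        rw [mul_assoc, ← Real.rpow_add hn']
        simp
      rw [h4]
      refine mul_le_mul_of_nonneg_right ?_ (by positivity)
      have h5 : ww n * (n : ℝ) ^ d' ≤ |ww n| * (n : ℝ) ^ d' :=
        mul_le_mul_of_nonneg_right (le_abs_self _) (by positivity)
      linarith [abs_nonneg C']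
  -- reduction of the lower case
  have caselow : ∀ c' : ℝ, 0 < c' →
      (∀ᶠ n : ℕ in atTop, c' * (n : ℝ) ^ (-(3 / 2) : ℝ) ≤ ww n) → False := by
    intro c' hc' hev
    obtain ⟨N, hN⟩ := eventually_atTop.1 hev
    exact no_low ww ww_nonneg ww_hasSum c' hc' N hN
  rcases lt_trichotomy τ 1 with hτ1 | hτ1 | hτ1
  · -- exponentially small
    have h2 : Tendsto (fun n : ℕ => (n : ℝ) ^ (2 - d) * τ ^ n) atTop (𝓝 0) := by
      obtain ⟨k, hk⟩ := exists_nat_ge (2 - d)
      have h3 : Tendsto (fun n : ℕ => (n : ℝ) ^ k * τ ^ n) atTop (𝓝 0) :=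
        tendsto_pow_const_mul_const_pow_of_lt_one k hτ0 hτ1
      refine squeeze_zero' (Eventually.of_forall fun n => by positivity) ?_ h3
      filter_upwards [eventually_ge_atTop 1] with n hn
      have hn' : (1 : ℝ) ≤ n := by exact_mod_cast hn
      refine mul_le_mul_of_nonneg_right ?_ (by positivity)
      rw [← Real.rpow_natCast]
      exact Real.rpow_le_rpow_of_exponent_le hn' hk
    refine caseup 2 (2 * c) (by norm_num) ?_
    filter_upwards [hup, h2.eventually (Iio_mem_nhds one_pos), eventually_ge_atTop 1]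
      with n hn1 hn2 hn3
    have hn' : (0 : ℝ) < n := by exact_mod_cast hn3
    refine hn1.trans ?_
    have e : (n : ℝ) ^ (-d) * τ ^ n = (n : ℝ) ^ (-2 : ℝ) * ((n : ℝ) ^ (2 - d) * τ ^ n) := by
      rw [← mul_assoc, ← Real.rpow_add hn']
      congr 2
      ring
    rw [e]
    have h4 : (n : ℝ) ^ (-2 : ℝ) * ((n : ℝ) ^ (2 - d) * τ ^ n) ≤ (n : ℝ) ^ (-2 : ℝ) * 1 :=
      mul_le_mul_of_nonneg_left (le_of_lt hn2) (by positivity)
    rw [mul_one] at h4
    exact mul_le_mul_of_nonneg_left h4 (by positivity)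
  · rw [hτ1] at hlow hup
    rcases le_or_gt d (3 / 2) with hd | hd
    · refine caselow (c / 2) (by positivity) ?_
      filter_upwards [hlow, eventually_ge_atTop 1] with n hn1 hn2
      have hn' : (1 : ℝ) ≤ n := by exact_mod_cast hn2
      refine le_trans ?_ hn1
      rw [one_pow, mul_one]
      refine mul_le_mul_of_nonneg_left ?_ (by positivity)
      exact Real.rpow_le_rpow_of_exponent_le hn' (by linarith)
    · refine caseup d (2 * c) hd ?_
      filter_upwards [hup] with n hn1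
      rw [one_pow, mul_one] at hn1
      exact hn1
  · -- exponentially large
    have h2 : Tendsto (fun n : ℕ => (n : ℝ) ^ (d - 3 / 2) * (τ⁻¹) ^ n) atTop (𝓝 0) := by
      obtain ⟨k, hk⟩ := exists_nat_ge (d - 3 / 2)
      have h3 : Tendsto (fun n : ℕ => (n : ℝ) ^ k * (τ⁻¹) ^ n) atTop (𝓝 0) :=
        tendsto_pow_const_mul_const_pow_of_lt_one k (by positivity) (inv_lt_one_of_one_lt₀ hτ1)
      refine squeeze_zero' (Eventually.of_forall fun n => by positivity) ?_ h3
      filter_upwards [eventually_ge_atTop 1] with n hn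
      have hn' : (1 : ℝ) ≤ n := by exact_mod_cast hn
      refine mul_le_mul_of_nonneg_right ?_ (by positivity)
      rw [← Real.rpow_natCast]
      exact Real.rpow_le_rpow_of_exponent_le hn' hk
    refine caselow (c / 2) (by positivity) ?_
    filter_upwards [hlow, h2.eventually (Iio_mem_nhds one_pos), eventually_ge_atTop 1]
      with n hn1 hn2 hn3
    have hn' : (0 : ℝ) < n := by exact_mod_cast hn3
    refine le_trans ?_ hn1
    refine mul_le_mul_of_nonneg_left ?_ (by positivity)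
    have hτn : 0 < τ ^ n := by positivity
    have e : (n : ℝ) ^ (-(3 / 2) : ℝ) = ((n : ℝ) ^ (d - 3 / 2) * (τ⁻¹) ^ n) *
        ((n : ℝ) ^ (-d) * τ ^ n) := by
      rw [inv_pow]
      have e1 : (n : ℝ) ^ (d - 3 / 2) * (τ ^ n)⁻¹ * ((n : ℝ) ^ (-d) * τ ^ n) =
          ((n : ℝ) ^ (d - 3 / 2) * (n : ℝ) ^ (-d)) * ((τ ^ n)⁻¹ * τ ^ n) := by ring
      rw [e1, inv_mul_cancel₀ hτn.ne', mul_one, ← Real.rpow_add hn']
      congr 1
      ring
    rw [e]
    exact mul_le_of_le_one_left (by positivity) (le_of_lt hn2)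

lemma op_eq (α β : ℝ) : (fun (h : G6 → ℝ) (x : G6) =>
    (nu α β).sum (fun y a => a * h (y⁻¹ * x))) = NN α β := by
  funext h x
  rw [nu_op]
  rfl

lemma not_equiv' (ρ c d : ℝ) (hc : 0 < c)
    (h : Asymptotics.IsEquivalent atTop (fun n : ℕ =>
        ((fun (h : G6 → ℝ) (x : G6) => (nu al be).sum (fun y a => a * h (y⁻¹ * x)))^[2 * n]
          (Set.indicator ({1} : Set G6) (fun _ => (1 : ℝ)))) 1)
      (fun n : ℕ => c * (n : ℝ) ^ (-d) * ρ ^ (2 * n))) : False := by
  rw [op_eq] at h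
  exact not_equiv ρ c d hc h

/-- symmetry, stated for a general group -/
def SymmP (G : Type) [Group G] (ν : G →₀ ℝ) : Prop := ∀ x, ν x⁻¹ = ν x

lemma nu_symmP : SymmP G6 (nu al be) := by
  intro x
  have h := nu_symm al be x
  generalize nu al be = ν at h ⊢
  exact h

end Pool.Agent.W2helper27.RP
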